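import Mathlib

set_option autoImplicit false

/-!
# Polynomials with small coefficients which take a square value at a large integer

At an integer `x` with `|x| ≥ 4 H` a polynomial with coefficients in `[-H, H]` is determined by its value. If the
upper half of the coefficients is given, the square values lie in a short interval.
-/

namespace Pool.Agent.U62.HY

open Polynomial Finset

/-- a polynomial with small coefficients and a large integer zero is zero -/
theorem eq_zero_of_root {x : ℤ} (hx : x ≠ 0) (n : ℕ) : ∀ h : ℤ[X], h.natDegree ≤ n → h.eval x = 0 →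
    (∀ k, |h.coeff k| < |x|) → h = 0 := by
  induction n with
  | zero =>
    intro h hd h0 _
    rw [Polynomial.eq_C_of_natDegree_le_zero hd] at h0 ⊢
    rw [eval_C] at h0
    rw [h0, C_0]
  | succ n ih =>
    intro h hd h0 hc
    have h1 : h.divX.eval x * x + h.coeff 0 = 0 := by
      have h2 := congrArg (fun p => Polynomial.eval x p) (Polynomial.divX_mul_X_add h)
      simp only [eval_add, eval_mul, eval_X, eval_C] at h2
      rw [h2, h0]
    have h3 : h.coeff 0 = 0 := by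
      have h2 : x ∣ h.coeff 0 := ⟨-h.divX.eval x, by linear_combination h1⟩
      exact Int.eq_zero_of_abs_lt_dvd ((abs_dvd x _).2 h2) (hc 0)
    have h4 : h.divX.eval x = 0 := by
      rw [h3, add_zero] at h1
      exact (mul_eq_zero.1 h1).resolve_right hx
    have h5 : h.divX = 0 := by
      refine ih h.divX ?_ h4 fun k => ?_
      · rw [Polynomial.natDegree_divX_eq_natDegree_tsub_one]
        omega
      · rw [Polynomial.coeff_divX]
        exact hc _
    rw [← Polynomial.divX_mul_X_add h, h5, h3, C_0, zero_mul, zero_add]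

/-- a polynomial with coefficients at most `H` is determined by its value at a large integer -/
theorem eval_inj {x : ℤ} {H : ℕ} (hx : 2 * (H : ℤ) < |x|) {f g : ℤ[X]}
    (hf : ∀ k, |f.coeff k| ≤ (H : ℤ)) (hg : ∀ k, |g.coeff k| ≤ (H : ℤ)) (h : f.eval x = g.eval x) : f = g := by
  have hx0 : x ≠ 0 := by
    rintro rfl
    rw [abs_zero] at hx
    have : (0 : ℤ) ≤ H := Int.natCast_nonneg H
    linarith
  refine sub_eq_zero.1 (eq_zero_of_root hx0 _ (f - g) le_rfl ?_ fun k => ?_)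
  · rw [eval_sub, h, sub_self]
  · rw [coeff_sub]
    have h1 := abs_sub (f.coeff k) (g.coeff k)
    have h2 := hf k
    have h3 := hg k
    linarith

/-- the geometric sum -/
theorem geom_le (q : ℝ) (hq : 2 ≤ q) (s : ℕ) : ∑ k ∈ range (s + 1), q ^ k ≤ 2 * q ^ s := by
  induction s with
  | zero => simp
  | succ s ih =>
    rw [sum_range_succ, pow_succ]
    have h1 : 0 ≤ q ^ s := by positivity
    nlinarith

/-- polynomials with the same upper coefficients have near values -/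
theorem near {x : ℤ} {H d s : ℕ} (hx : 2 ≤ |(x : ℝ)|) (hsd : s ≤ d) {f g : ℤ[X]} (hfd : f.natDegree ≤ d)
    (hgd : g.natDegree ≤ d) (hf : ∀ k, |f.coeff k| ≤ (H : ℤ)) (hg : ∀ k, |g.coeff k| ≤ (H : ℤ))
    (h : ∀ k, s < k → f.coeff k = g.coeff k) :
    |((f.eval x : ℤ) : ℝ) - ((g.eval x : ℤ) : ℝ)| ≤ 4 * H * |(x : ℝ)| ^ s := by
  have h1 : ((f.eval x : ℤ) : ℝ) - ((g.eval x : ℤ) : ℝ) =
      ∑ k ∈ range (s + 1), ((f.coeff k : ℝ) - (g.coeff k : ℝ)) * (x : ℝ) ^ k := by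
    rw [Polynomial.eval_eq_sum_range' (n := d + 1) (by omega), Polynomial.eval_eq_sum_range' (n := d + 1)
      (by omega)]
    push_cast
    rw [← sum_sub_distrib]
    have h2 : ∑ k ∈ range (s + 1), ((f.coeff k : ℝ) - (g.coeff k : ℝ)) * (x : ℝ) ^ k =
        ∑ k ∈ range (d + 1), ((f.coeff k : ℝ) - (g.coeff k : ℝ)) * (x : ℝ) ^ k := by
      refine sum_subset (fun k hk => ?_) fun k _ hk => ?_
      · rw [mem_range] at hk ⊢
        omega
      · rw [mem_range] at hk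
        rw [h k (by omega), sub_self, zero_mul]
    rw [h2]
    exact sum_congr rfl fun k _ => by ring
  rw [h1]
  refine (abs_sum_le_sum_abs _ _).trans ?_
  have h3 : ∀ k ∈ range (s + 1), |((f.coeff k : ℝ) - (g.coeff k : ℝ)) * (x : ℝ) ^ k| ≤
      2 * H * |(x : ℝ)| ^ k := by
    intro k _
    rw [abs_mul, abs_pow]
    refine mul_le_mul_of_nonneg_right ?_ (by positivity)
    have h4 := abs_sub (f.coeff k : ℝ) (g.coeff k : ℝ)
    have h5 : |(f.coeff k : ℝ)| ≤ H := by exact_mod_cast hf k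
    have h6 : |(g.coeff k : ℝ)| ≤ H := by exact_mod_cast hg k
    linarith
  refine (sum_le_sum h3).trans ?_
  rw [← mul_sum]
  have h7 := geom_le |(x : ℝ)| hx s
  have h8 : (0 : ℝ) ≤ 2 * H := by positivity
  nlinarith

/-- the size of the value -/
theorem value_ge {x : ℤ} {H d : ℕ} (hd : 1 ≤ d) (hH : 1 ≤ H) (hx : 4 * (H : ℝ) ≤ |(x : ℝ)|) {f : ℤ[X]}
    (hfd : f.natDegree = d) (hf : ∀ k, |f.coeff k| ≤ (H : ℤ)) :
    |(f.coeff d : ℝ)| * |(x : ℝ)| ^ d ≤ 2 * |((f.eval x : ℤ) : ℝ)| := by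
  have hHr : (1 : ℝ) ≤ H := by exact_mod_cast hH
  have hc : (1 : ℝ) ≤ |(f.coeff d : ℝ)| := by
    have h1 : f.coeff d ≠ 0 := by
      rw [← hfd]
      have h2 : f ≠ 0 := by
        rintro rfl
        rw [natDegree_zero] at hfd
        omega
      exact leadingCoeff_ne_zero.2 h2
    have h2 := Int.one_le_abs h1
    exact_mod_cast h2
  obtain ⟨e, rfl⟩ : ∃ e, d = e + 1 := ⟨d - 1, by omega⟩
  have h1 : ((f.eval x : ℤ) : ℝ) = (∑ k ∈ range (e + 1), (f.coeff k : ℝ) * (x : ℝ) ^ k) +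
      (f.coeff (e + 1) : ℝ) * (x : ℝ) ^ (e + 1) := by
    rw [Polynomial.eval_eq_sum_range' (n := e + 1 + 1) (by omega)]
    push_cast
    rw [sum_range_succ]
  have h2 : |∑ k ∈ range (e + 1), (f.coeff k : ℝ) * (x : ℝ) ^ k| ≤ 2 * H * |(x : ℝ)| ^ e := by
    refine (abs_sum_le_sum_abs _ _).trans ?_
    have h3 : ∀ k ∈ range (e + 1), |(f.coeff k : ℝ) * (x : ℝ) ^ k| ≤ H * |(x : ℝ)| ^ k := by
      intro k _
      rw [abs_mul, abs_pow]
      refine mul_le_mul_of_nonneg_right ?_ (by positivity)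
      exact_mod_cast hf k
    refine (sum_le_sum h3).trans ?_
    rw [← mul_sum]
    have h7 := geom_le |(x : ℝ)| (by linarith) e
    nlinarith
  have h3 : |(f.coeff (e + 1) : ℝ)| * |(x : ℝ)| ^ (e + 1) ≤ |((f.eval x : ℤ) : ℝ)| + 2 * H * |(x : ℝ)| ^ e := by
    have h4 : (f.coeff (e + 1) : ℝ) * (x : ℝ) ^ (e + 1) = ((f.eval x : ℤ) : ℝ) -
        ∑ k ∈ range (e + 1), (f.coeff k : ℝ) * (x : ℝ) ^ k := by rw [h1]; ring
    rw [← abs_pow, ← abs_mul, h4]
    refine (abs_sub _ _).trans ?_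
    linarith
  have h5 : 2 * H * |(x : ℝ)| ^ e ≤ |(x : ℝ)| ^ (e + 1) / 2 := by
    rw [pow_succ]
    have h6 : 0 ≤ |(x : ℝ)| ^ e := by positivity
    nlinarith
  have h6 : |(x : ℝ)| ^ (e + 1) ≤ |(f.coeff (e + 1) : ℝ)| * |(x : ℝ)| ^ (e + 1) :=
    le_mul_of_one_le_left (by positivity) hc
  linarith

/-- a set with small differences -/
theorem card_le_of_close {α : Type*} (S : Finset α) (y : α → ℕ) (hinj : Set.InjOn y S) {D : ℝ} (hD : 0 ≤ D)
    (h : ∀ f ∈ S, ∀ g ∈ S, (y f : ℝ) - y g ≤ D) : (S.card : ℝ) ≤ D + 1 := by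
  classical
  rcases S.eq_empty_or_nonempty with rfl | hS
  · simp only [card_empty, Nat.cast_zero]
    linarith
  obtain ⟨a, ha, hmin⟩ := S.exists_min_image y hS
  have h1 : S.image y ⊆ Icc (y a) (y a + ⌊D⌋₊) := by
    intro b hb
    obtain ⟨f, hf, rfl⟩ := mem_image.1 hb
    rw [mem_Icc]
    refine ⟨hmin f hf, ?_⟩
    have h2 := h f hf a ha
    have h3 : y f - y a ≤ ⌊D⌋₊ := by
      refine Nat.le_floor ?_
      rw [Nat.cast_sub (hmin f hf)]
      exact h2
    omega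
  have h2 := card_le_card h1
  rw [card_image_of_injOn hinj, Nat.card_Icc] at h2
  have h3 : S.card ≤ ⌊D⌋₊ + 1 := by omega
  have h4 : (S.card : ℝ) ≤ (⌊D⌋₊ : ℝ) + 1 := by exact_mod_cast h3
  have h5 := Nat.floor_le hD
  linarith

/-- square roots of near large squares -/
theorem sqrt_close {u v Y L : ℝ} (hu : 0 ≤ u) (hv : 0 ≤ v) (hY : 0 < Y) (huY : Y ≤ u ^ 2) (hvY : Y ≤ v ^ 2)
    (h : |u ^ 2 - v ^ 2| ≤ L) : u - v ≤ L / (2 * √Y) := by
  have hs : 0 < √Y := Real.sqrt_pos.2 hY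
  have h1 : √Y ≤ u := by rw [← Real.sqrt_sq hu]; exact Real.sqrt_le_sqrt huY
  have h2 : √Y ≤ v := by rw [← Real.sqrt_sq hv]; exact Real.sqrt_le_sqrt hvY
  rw [le_div_iff₀ (by positivity)]
  have hL : 0 ≤ L := (abs_nonneg _).trans h
  rcases le_or_gt u v with huv | huv
  · nlinarith
  · have h3 : (u - v) * (u + v) ≤ L := by
      refine le_trans (le_of_eq (by ring)) ((le_abs_self _).trans h)
    nlinarith

/-- the sum of the reciprocals of the square roots -/
theorem sum_sqrt (H : ℕ) : ∑ k ∈ Icc 1 H, 1 / √(k : ℝ) ≤ 2 * √(H : ℝ) := by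
  induction H with
  | zero => simp
  | succ n ih =>
    rw [sum_Icc_succ_top (by omega)]
    have h0 : (0 : ℝ) ≤ n := Nat.cast_nonneg n
    have h1 : √(n : ℝ) ^ 2 = n := Real.sq_sqrt h0
    have h2 : √((n + 1 : ℕ) : ℝ) ^ 2 = n + 1 := by
      rw [Real.sq_sqrt (by positivity)]
      push_cast
      ring
    have h3 : 0 < √((n + 1 : ℕ) : ℝ) := Real.sqrt_pos.2 (by positivity)
    have h4 : 0 ≤ √(n : ℝ) := Real.sqrt_nonneg _
    have h5 : 1 / √((n + 1 : ℕ) : ℝ) ≤ 2 * √((n + 1 : ℕ) : ℝ) - 2 * √(n : ℝ) := by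
      rw [div_le_iff₀ h3]
      nlinarith [sq_nonneg (√((n + 1 : ℕ) : ℝ) - √(n : ℝ))]
    linarith

theorem sum_int (H : ℕ) (g : ℕ → ℝ) (hg : ∀ n, 0 ≤ g n) :
    ∑ c ∈ (Icc (-(H : ℤ)) H).erase 0, g c.natAbs ≤ 2 * ∑ k ∈ Icc 1 H, g k := by
  classical
  have hsub : (Icc (-(H : ℤ)) H).erase 0 ⊆ (Icc 1 H).image (fun b : ℕ => (b : ℤ)) ∪
      (Icc 1 H).image (fun b : ℕ => -(b : ℤ)) := by
    intro x hx
    obtain ⟨h1, h2⟩ := mem_erase.1 hx
    rw [mem_Icc] at h2
    have h3 : x.natAbs ∈ Icc 1 H := by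
      rw [mem_Icc]
      omega
    rw [mem_union, mem_image, mem_image]
    rcases Int.natAbs_eq x with h | h
    · exact Or.inl ⟨_, h3, h.symm⟩
    · exact Or.inr ⟨_, h3, h.symm⟩
  refine (sum_le_sum_of_subset_of_nonneg hsub fun x _ _ => hg _).trans ?_
  have h1 : ∑ x ∈ (Icc 1 H).image (fun b : ℕ => (b : ℤ)), g x.natAbs = ∑ k ∈ Icc 1 H, g k := by
    rw [sum_image fun a _ b _ h => by exact_mod_cast h]
    exact sum_congr rfl fun k _ => by rw [Int.natAbs_natCast]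
  have h2 : ∑ x ∈ (Icc 1 H).image (fun b : ℕ => -(b : ℤ)), g x.natAbs = ∑ k ∈ Icc 1 H, g k := by
    rw [sum_image fun a _ b _ h => by
      have : (a : ℤ) = b := neg_injective h
      exact_mod_cast this]
    exact sum_congr rfl fun k _ => by rw [Int.natAbs_neg, Int.natAbs_natCast]
  have h3 := sum_union_inter (s₁ := (Icc 1 H).image fun b : ℕ => (b : ℤ))
    (s₂ := (Icc 1 H).image fun b : ℕ => -(b : ℤ)) (f := fun x : ℤ => g x.natAbs)
  have h4 : 0 ≤ ∑ x ∈ ((Icc 1 H).image fun b : ℕ => (b : ℤ)) ∩ ((Icc 1 H).image fun b : ℕ => -(b : ℤ)),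
    g x.natAbs := sum_nonneg fun x _ => hg _
  linarith

end Pool.Agent.U62.HY
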