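import Mathlib

set_option autoImplicit false

/-!
# Squares among the values of binary forms with small coefficients, modulo powers of one variable
-/

namespace Pool.Agent.U62.HY

open Finset

/-- the terms of low degree in `a` of the binary form with coefficients `c` -/
def low (n k : ℕ) (a b : ℤ) (c : ℕ → ℤ) : ℤ := ∑ j ∈ range k, c j * (b ^ (n - j) * a ^ j)

theorem low_succ (n k : ℕ) (a b : ℤ) (c : ℕ → ℤ) :
    low n (k + 1) a b c = low n k a b c + c k * (b ^ (n - k) * a ^ k) := by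
  unfold low
  rw [sum_range_succ]

theorem low_dvd (n : ℕ) (a b : ℤ) (c : ℕ → ℤ) {j k : ℕ} (hjk : j ≤ k) :
    a ^ j ∣ low n k a b c - low n j a b c := by
  induction k, hjk using Nat.le_induction with
  | base => rw [sub_self]; exact dvd_zero _
  | succ k hk ih =>
    rw [low_succ]
    have h1 : a ^ j ∣ c k * (b ^ (n - k) * a ^ k) :=
      Dvd.dvd.mul_left (Dvd.dvd.mul_left (pow_dvd_pow a hk) _) _
    have h2 := dvd_add ih h1
    have e : low n k a b c + c k * (b ^ (n - k) * a ^ k) - low n j a b c =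
      low n k a b c - low n j a b c + c k * (b ^ (n - k) * a ^ k) := by ring
    rw [e]
    exact h2

/-- the digits are unique -/
theorem digits {n k H : ℕ} {a b : ℤ} (hab : IsCoprime a b) (ha : 2 * (H : ℤ) < |a|) {c c' : ℕ → ℤ}
    (hc : ∀ j, |c j| ≤ (H : ℤ)) (hc' : ∀ j, |c' j| ≤ (H : ℤ))
    (h : a ^ k ∣ low n k a b c - low n k a b c') : ∀ j < k, c j = c' j := by
  have ha0 : a ≠ 0 := by
    rintro rfl
    rw [abs_zero] at ha
    have : (0 : ℤ) ≤ H := Int.natCast_nonneg H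
    linarith
  have key : ∀ m, m ≤ k → ∀ j < m, c j = c' j := by
    intro m
    induction m with
    | zero => intro _ j hj; omega
    | succ m ih =>
      intro hm j hj
      have ih' := ih (by omega)
      rcases Nat.lt_succ_iff_lt_or_eq.1 hj with hj' | rfl
      · exact ih' j hj'
      have h1 : a ^ (j + 1) ∣ low n (j + 1) a b c - low n (j + 1) a b c' := by
        have h2 := low_dvd n a b c hm
        have h3 := low_dvd n a b c' hm
        have h4 := (pow_dvd_pow a hm).trans h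
        have e : low n (j + 1) a b c - low n (j + 1) a b c' = (low n k a b c - low n k a b c') -
          (low n k a b c - low n (j + 1) a b c) + (low n k a b c' - low n (j + 1) a b c') := by ring
        rw [e]
        exact dvd_add (dvd_sub h4 h2) h3
      have h5 : low n j a b c = low n j a b c' := by
        unfold low
        exact sum_congr rfl fun i hi => by rw [ih' i (mem_range.1 hi)]
      rw [low_succ, low_succ, h5] at h1
      have e : low n j a b c' + c j * (b ^ (n - j) * a ^ j) - (low n j a b c' + c' j * (b ^ (n - j) * a ^ j)) =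
        a ^ j * ((c j - c' j) * b ^ (n - j)) := by ring
      rw [e, pow_succ] at h1
      have h6 : a ∣ (c j - c' j) * b ^ (n - j) := (mul_dvd_mul_iff_left (pow_ne_zero j ha0)).1 h1
      have h7 : a ∣ c j - c' j := (hab.pow_right).dvd_of_dvd_mul_right h6
      have h8 : |c j - c' j| < |a| := by
        have := abs_sub (c j) (c' j)
        have := hc j
        have := hc' j
        linarith
      have h9 := Int.eq_zero_of_abs_lt_dvd ((abs_dvd a _).2 h7) h8
      linarith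
  exact key k le_rfl

/-- integers of one residue class in an interval -/
theorem card_class (S : Finset ℤ) (lo : ℤ) (L M : ℕ) (hM : 1 ≤ M) (h1 : ∀ x ∈ S, lo ≤ x ∧ x ≤ lo + L)
    (h2 : ∀ x ∈ S, ∀ y ∈ S, (M : ℤ) ∣ x - y) : S.card ≤ L / M + 1 := by
  classical
  rcases S.eq_empty_or_nonempty with rfl | hS
  · simp
  obtain ⟨a, ha, hmin⟩ := S.exists_min_image id hS
  have hM0 : (0 : ℤ) < M := by exact_mod_cast hM
  have h3 : S.card ≤ (range (L / M + 1)).card := by
    refine card_le_card_of_injOn (fun x => ((x - a) / M).toNat) (fun x hx => ?_) fun x hx y hy hxy => ?_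
    · rw [mem_coe, mem_range, Nat.lt_succ_iff]
      show ((x - a) / M).toNat ≤ L / M
      have h4 : x - a ≤ L := by
        have := (h1 x hx).2
        have := (h1 a ha).1
        linarith
      have h5 : (x - a) / M ≤ (L : ℤ) / M := Int.ediv_le_ediv hM0 h4
      have h6 : ((L / M : ℕ) : ℤ) = (L : ℤ) / M := by push_cast; rfl
      rw [← h6] at h5
      exact Int.toNat_le.2 h5
    · obtain ⟨u, hu⟩ := h2 x hx a ha
      obtain ⟨v, hv⟩ := h2 y hy a ha
      have hxa : a ≤ x := hmin x hx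
      have hya : a ≤ y := hmin y hy
      have hxy' : ((x - a) / M).toNat = ((y - a) / M).toNat := hxy
      rw [hu, hv, Int.mul_ediv_cancel_left _ hM0.ne', Int.mul_ediv_cancel_left _ hM0.ne'] at hxy'
      have hu0 : 0 ≤ u := by
        by_contra h
        push Not at h
        nlinarith
      have hv0 : 0 ≤ v := by
        by_contra h
        push Not at h
        nlinarith
      have : u = v := by omega
      rw [this] at hu
      linarith
  rwa [card_range] at h3

/-- the residues modulo `a ^ k` whose square is small in the sense of digits -/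
noncomputable def RR (n H : ℕ) (a b : ℤ) (k : ℕ) : Finset ℕ := by
  classical
  exact (range (a.natAbs ^ k)).filter fun r => ∃ c : ℕ → ℤ, (∀ j, |c j| ≤ (H : ℤ)) ∧ c 0 ≠ 0 ∧
    a ^ k ∣ (r : ℤ) ^ 2 - low n k a b c

theorem mem_RR {n H : ℕ} {a b : ℤ} {k r : ℕ} : r ∈ RR n H a b k ↔ r < a.natAbs ^ k ∧
    ∃ c : ℕ → ℤ, (∀ j, |c j| ≤ (H : ℤ)) ∧ c 0 ≠ 0 ∧ a ^ k ∣ (r : ℤ) ^ 2 - low n k a b c := by
  classical
  unfold RR
  rw [mem_filter, mem_range]

theorem dvd_iff_nat {a : ℤ} {k : ℕ} {x : ℤ} : a ^ k ∣ x ↔ ((a.natAbs ^ k : ℕ) : ℤ) ∣ x := by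
  rw [← Int.natAbs_pow, Int.natAbs_dvd]

/-- **one more digit** -/
theorem RR_succ {n H : ℕ} {a b : ℤ} (hab : IsCoprime a b) (hH : 1 ≤ H) (ha : 2 * (H : ℤ) < |a|) {k : ℕ}
    (hk : 1 ≤ k) : (RR n H a b (k + 1)).card ≤ 6 * H * (RR n H a b k).card := by
  classical
  obtain ⟨q, hq⟩ : ∃ q : ℕ, q = a.natAbs := ⟨_, rfl⟩
  have hqa : (q : ℤ) = |a| := by rw [hq, Int.natCast_natAbs]
  have hq2 : 2 * H < q := by
    have : (2 * (H : ℤ)) < q := by rw [hqa]; exact ha
    exact_mod_cast this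
  have hq0 : 0 < q := by omega
  have ha0 : a ≠ 0 := by
    rintro rfl
    rw [Int.natAbs_zero] at hq
    omega
  have hqk : 0 < q ^ k := pow_pos hq0 k
  have hdq : ∀ x : ℤ, a ∣ x ↔ (q : ℤ) ∣ x := fun x => by
    have := dvd_iff_nat (a := a) (k := 1) (x := x)
    rwa [pow_one, pow_one, ← hq] at this
  -- reduction
  have himg : (RR n H a b (k + 1)).image (fun r => r % q ^ k) ⊆ RR n H a b k := by
    intro ρ hρ
    obtain ⟨r, hr, rfl⟩ := mem_image.1 hρ
    obtain ⟨-, c, hc, hc0, hd⟩ := mem_RR.1 hr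
    refine mem_RR.2 ⟨by rw [← hq]; exact Nat.mod_lt _ hqk, c, hc, hc0, ?_⟩
    have h1 : a ^ k ∣ (r : ℤ) ^ 2 - low n (k + 1) a b c := (pow_dvd_pow a (Nat.le_succ k)).trans hd
    have h2 := low_dvd n a b c (Nat.le_succ k)
    have h3 : a ^ k ∣ (r : ℤ) - ((r % q ^ k : ℕ) : ℤ) := by
      rw [dvd_iff_nat, ← hq]
      refine ⟨((r / q ^ k : ℕ) : ℤ), ?_⟩
      have := Nat.mod_add_div r (q ^ k)
      have h4 : ((r % q ^ k : ℕ) : ℤ) + ((q ^ k : ℕ) : ℤ) * ((r / q ^ k : ℕ) : ℤ) = (r : ℤ) := by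
        exact_mod_cast this
      linarith
    have e : ((r % q ^ k : ℕ) : ℤ) ^ 2 - low n k a b c = ((r : ℤ) ^ 2 - low n (k + 1) a b c) +
      (low n (k + 1) a b c - low n k a b c) - ((r : ℤ) - ((r % q ^ k : ℕ) : ℤ)) *
        ((r : ℤ) + ((r % q ^ k : ℕ) : ℤ)) := by ring
    rw [e]
    exact dvd_sub (dvd_add h1 h2) (Dvd.dvd.mul_right h3 _)
  refine (card_le_mul_card_image (f := fun r => r % q ^ k) (RR n H a b (k + 1)) (6 * H) ?_).trans
    (Nat.mul_le_mul_left _ (card_le_card himg))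
  intro ρ _
  obtain ⟨F, hF⟩ : ∃ F : Finset ℕ, F = (RR n H a b (k + 1)).filter fun r => r % q ^ k = ρ := ⟨_, rfl⟩
  rw [← hF]
  -- witnesses
  have hw : ∀ r, ∃ c : ℕ → ℤ, r ∈ F → (∀ j, |c j| ≤ (H : ℤ)) ∧ c 0 ≠ 0 ∧
      a ^ (k + 1) ∣ (r : ℤ) ^ 2 - low n (k + 1) a b c := by
    intro r
    by_cases h : r ∈ F
    · rw [hF, mem_filter] at h
      obtain ⟨-, c, hc⟩ := mem_RR.1 h.1
      exact ⟨c, fun _ => hc⟩
    · exact ⟨fun _ => 0, fun h' => absurd h' h⟩
  choose w hw using hw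
  obtain ⟨g, hg⟩ : ∃ g : ℕ, g = Nat.gcd q (2 * ρ) := ⟨_, rfl⟩
  have hg0 : 0 < g := by rw [hg]; exact Nat.gcd_pos_of_pos_left _ hq0
  have hgq : g ∣ q := by rw [hg]; exact Nat.gcd_dvd_left _ _
  have hga : (g : ℤ) ∣ a := by
    have h1 : (g : ℤ) ∣ (q : ℤ) := by exact_mod_cast hgq
    rw [hqa] at h1
    exact (dvd_abs _ _).1 h1
  have hgb : IsCoprime (g : ℤ) b := hab.of_isCoprime_of_dvd_left hga
  have hlt : ∀ r ∈ F, r < q ^ (k + 1) := fun r hr => by
    rw [hF, mem_filter] at hr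
    rw [hq]
    exact (mem_RR.1 hr.1).1
  have hmod : ∀ r ∈ F, r % q ^ k = ρ := fun r hr => by
    rw [hF, mem_filter] at hr
    exact hr.2
  have hmodq : ∀ r ∈ F, (q : ℤ) ∣ (r : ℤ) - ρ := by
    intro r hr
    have h1 : (q : ℤ) ∣ ((q ^ k : ℕ) : ℤ) := by
      obtain ⟨j, rfl⟩ : ∃ j, k = j + 1 := ⟨k - 1, by omega⟩
      rw [pow_succ]
      push_cast
      exact dvd_mul_left _ _
    refine h1.trans ⟨((r / q ^ k : ℕ) : ℤ), ?_⟩
    have h2 := Nat.mod_add_div r (q ^ k)
    rw [hmod r hr] at h2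
    have h4 : (ρ : ℤ) + ((q ^ k : ℕ) : ℤ) * ((r / q ^ k : ℕ) : ℤ) = (r : ℤ) := by exact_mod_cast h2
    linarith
  have hg2 : ∀ r ∈ F, (g : ℤ) ∣ 2 * (r : ℤ) := by
    intro r hr
    have h1 : (g : ℤ) ∣ 2 * (ρ : ℤ) := by
      have : g ∣ 2 * ρ := by rw [hg]; exact Nat.gcd_dvd_right _ _
      exact_mod_cast this
    have h2 : (g : ℤ) ∣ (r : ℤ) - ρ := (by exact_mod_cast hgq : (g : ℤ) ∣ (q : ℤ)).trans (hmodq r hr)
    have e : 2 * (r : ℤ) = 2 * (ρ : ℤ) + 2 * ((r : ℤ) - ρ) := by ring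
    rw [e]
    exact dvd_add h1 (Dvd.dvd.mul_left h2 _)
  -- the difference of two elements of the fibre
  have hdiff : ∀ r ∈ F, ∀ r' ∈ F, ∃ s : ℤ, (r : ℤ) - r' = a ^ k * s ∧
      a ∣ 2 * (r' : ℤ) * s - (w r k - w r' k) * b ^ (n - k) := by
    intro r hr r' hr'
    obtain ⟨hc, -, hd⟩ := hw r hr
    obtain ⟨hc', -, hd'⟩ := hw r' hr'
    have h1 : a ^ k ∣ (r : ℤ) - r' := by
      rw [dvd_iff_nat, ← hq]
      have h2 : (r : ℤ) ≡ r' [ZMOD ((q ^ k : ℕ) : ℤ)] := by
        rw [Int.natCast_modEq_iff]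
        unfold Nat.ModEq
        rw [hmod r hr, hmod r' hr']
      exact h2.symm.dvd
    obtain ⟨s, hs⟩ := h1
    refine ⟨s, hs, ?_⟩
    have h2 : ∀ j < k, w r j = w r' j := by
      refine digits hab ha hc hc' (n := n) ?_
      have h3 := (pow_dvd_pow a (Nat.le_succ k)).trans hd
      have h4 := (pow_dvd_pow a (Nat.le_succ k)).trans hd'
      have h5 := low_dvd n a b (w r) (Nat.le_succ k)
      have h6 := low_dvd n a b (w r') (Nat.le_succ k)
      have e : low n k a b (w r) - low n k a b (w r') =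
        -((r : ℤ) ^ 2 - low n (k + 1) a b (w r)) - (low n (k + 1) a b (w r) - low n k a b (w r)) +
        ((r' : ℤ) ^ 2 - low n (k + 1) a b (w r')) + (low n (k + 1) a b (w r') - low n k a b (w r')) +
        a ^ k * (s * ((r : ℤ) + r')) := by
        have : a ^ k * (s * ((r : ℤ) + r')) = ((r : ℤ) - r') * ((r : ℤ) + r') := by rw [hs]; ring
        rw [this]
        ring
      rw [e]
      exact dvd_add (dvd_add (dvd_add (dvd_sub ((dvd_neg).2 h3) h5) h4) h6) (dvd_mul_right _ _)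
    have h7 : low n k a b (w r) = low n k a b (w r') := by
      unfold low
      exact sum_congr rfl fun i hi => by rw [h2 i (mem_range.1 hi)]
    have h8 := dvd_sub hd hd'
    rw [low_succ, low_succ, h7] at h8
    have e : (r : ℤ) ^ 2 - (low n k a b (w r') + w r k * (b ^ (n - k) * a ^ k)) -
        ((r' : ℤ) ^ 2 - (low n k a b (w r') + w r' k * (b ^ (n - k) * a ^ k))) =
        a ^ k * (2 * (r' : ℤ) * s + a ^ k * s ^ 2 - (w r k - w r' k) * b ^ (n - k)) := by
      have : (r : ℤ) = r' + a ^ k * s := by linarith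
      rw [this]
      ring
    rw [e, pow_succ] at h8
    have h9 : a ∣ 2 * (r' : ℤ) * s + a ^ k * s ^ 2 - (w r k - w r' k) * b ^ (n - k) :=
      (mul_dvd_mul_iff_left (pow_ne_zero k ha0)).1 h8
    have h10 : a ∣ a ^ k * s ^ 2 := Dvd.dvd.mul_right (dvd_pow_self a (by omega)) _
    have e2 : 2 * (r' : ℤ) * s - (w r k - w r' k) * b ^ (n - k) =
      (2 * (r' : ℤ) * s + a ^ k * s ^ 2 - (w r k - w r' k) * b ^ (n - k)) - a ^ k * s ^ 2 := by ring
    rw [e2]
    exact dvd_sub h9 h10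
  rcases F.eq_empty_or_nonempty with hFe | ⟨r₀, hr₀⟩
  · rw [hFe, card_empty]
    exact Nat.zero_le _
  -- the greatest common divisor is small
  have hg4 : g ≤ 4 * H := by
    obtain ⟨hc, hc0, hd⟩ := hw r₀ hr₀
    have h1 : a ∣ (r₀ : ℤ) ^ 2 - low n (k + 1) a b (w r₀) := (dvd_pow_self a (by omega)).trans hd
    have h2 := low_dvd n a b (w r₀) (show 1 ≤ k + 1 by omega)
    rw [pow_one] at h2
    have h3 : low n 1 a b (w r₀) = w r₀ 0 * b ^ n := by
      unfold low
      simp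
    have h4 : (g : ℤ) ∣ 4 * w r₀ 0 * b ^ n := by
      have h5 := hga.trans h1
      have h6 := hga.trans h2
      have h7 := hg2 r₀ hr₀
      have e : 4 * w r₀ 0 * b ^ n = (2 * (r₀ : ℤ)) * (2 * (r₀ : ℤ)) -
        4 * ((r₀ : ℤ) ^ 2 - low n (k + 1) a b (w r₀)) - 4 * (low n (k + 1) a b (w r₀) - low n 1 a b (w r₀)) := by
        rw [h3]
        ring
      rw [e]
      exact dvd_sub (dvd_sub (Dvd.dvd.mul_right h7 _) (Dvd.dvd.mul_left h5 _)) (Dvd.dvd.mul_left h6 _)
    have h5 : (g : ℤ) ∣ 4 * w r₀ 0 := (hgb.pow_right).dvd_of_dvd_mul_right h4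
    have h6 := Int.le_of_dvd (by have := abs_pos.2 hc0; positivity) ((dvd_abs _ _).2 h5)
    rw [abs_mul] at h6
    have h7 := hc 0
    have h8 : |(4 : ℤ)| = 4 := by norm_num
    rw [h8] at h6
    have : (g : ℤ) ≤ 4 * H := by linarith
    exact_mod_cast this
  -- the digits are in one class
  have hdig : ((F.image fun r => w r k)).card ≤ 2 * H / g + 1 := by
    refine card_class _ (-(H : ℤ)) (2 * H) g hg0 ?_ ?_
    · intro x hx
      obtain ⟨r, hr, rfl⟩ := mem_image.1 hx
      have h1 := abs_le.1 ((hw r hr).1 k)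
      refine ⟨h1.1, ?_⟩
      push_cast
      linarith [h1.2]
    · intro x hx y hy
      obtain ⟨r, hr, rfl⟩ := mem_image.1 hx
      obtain ⟨r', hr', rfl⟩ := mem_image.1 hy
      obtain ⟨s, -, h1⟩ := hdiff r hr r' hr'
      have h2 := hga.trans h1
      have h3 := hg2 r' hr'
      have h4 : (g : ℤ) ∣ (w r k - w r' k) * b ^ (n - k) := by
        have e : (w r k - w r' k) * b ^ (n - k) = 2 * (r' : ℤ) * s -
          (2 * (r' : ℤ) * s - (w r k - w r' k) * b ^ (n - k)) := by ring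
        rw [e]
        exact dvd_sub (Dvd.dvd.mul_right h3 _) h2
      exact (hgb.pow_right).dvd_of_dvd_mul_right h4
  -- the fibres
  have hfib : ∀ x ∈ F.image (fun r => w r k), (F.filter fun r => w r k = x).card ≤ g := by
    intro x _
    obtain ⟨M, hM⟩ : ∃ M : ℕ, M = q ^ k * (q / g) := ⟨_, rfl⟩
    have hMg : M * g = q ^ (k + 1) := by
      rw [hM, mul_assoc, Nat.div_mul_cancel hgq, pow_succ]
    have hM0 : 1 ≤ M := by
      rw [hM]
      exact Nat.mul_pos hqk (Nat.div_pos (Nat.le_of_dvd hq0 hgq) hg0)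
    have h1 : ((F.filter fun r => w r k = x).image fun r : ℕ => (r : ℤ)).card ≤ (q ^ (k + 1) - 1) / M + 1 := by
      refine card_class _ 0 (q ^ (k + 1) - 1) M hM0 ?_ ?_
      · intro z hz
        obtain ⟨r, hr, rfl⟩ := mem_image.1 hz
        have h2 := hlt r (mem_filter.1 hr).1
        refine ⟨Int.natCast_nonneg r, ?_⟩
        rw [zero_add]
        have : r ≤ q ^ (k + 1) - 1 := by omega
        exact_mod_cast this
      · intro z hz z' hz'
        obtain ⟨r, hr, rfl⟩ := mem_image.1 hz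
        obtain ⟨r', hr', rfl⟩ := mem_image.1 hz'
        obtain ⟨hr1, hr2⟩ := mem_filter.1 hr
        obtain ⟨hr1', hr2'⟩ := mem_filter.1 hr'
        obtain ⟨s, hs, h2⟩ := hdiff r hr1 r' hr1'
        rw [hr2, hr2', sub_self, zero_mul, sub_zero] at h2
        have h3 : (q : ℤ) ∣ 2 * (r' : ℤ) * s := (hdq _).1 h2
        have h4 : (q : ℤ) ∣ 2 * (ρ : ℤ) * s := by
          have e : 2 * (ρ : ℤ) * s = 2 * (r' : ℤ) * s - 2 * s * ((r' : ℤ) - ρ) := by ring
          rw [e]
          exact dvd_sub h3 (Dvd.dvd.mul_left (hmodq r' hr1') _)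
        have h5 : (2 * (ρ : ℤ)) * s ≡ (2 * (ρ : ℤ)) * 0 [ZMOD (q : ℤ)] := by
          rw [mul_zero]
          exact (Int.modEq_zero_iff_dvd).2 h4
        have h6 := Int.ModEq.cancel_left_div_gcd (by exact_mod_cast hq0) h5
        have h7 : ((q / g : ℕ) : ℤ) ∣ s := by
          have h8 := (Int.modEq_zero_iff_dvd).1 h6
          have h9 : ((q / g : ℕ) : ℤ) = (q : ℤ) / (Int.gcd (q : ℤ) (2 * (ρ : ℤ)) : ℕ) := by
            have h10 : Int.gcd (q : ℤ) (2 * (ρ : ℤ)) = g := by
              rw [hg]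
              have : (2 * (ρ : ℤ)) = ((2 * ρ : ℕ) : ℤ) := by push_cast; ring
              rw [this, Int.gcd_natCast_natCast]
            rw [h10]
            push_cast
            rfl
          rw [h9]
          exact h8
        obtain ⟨u, hu⟩ := h7
        have h8 : ((q ^ k : ℕ) : ℤ) ∣ a ^ k := by
          rw [hq, ← dvd_iff_nat]
        obtain ⟨v, hv⟩ := h8
        refine ⟨v * u, ?_⟩
        show (r : ℤ) - r' = (M : ℤ) * (v * u)
        rw [hs, hv, hu, hM]
        push_cast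
        ring
    rw [card_image_of_injective _ Nat.cast_injective] at h1
    refine h1.trans ?_
    rw [← hMg]
    have h2 : (M * g - 1) / M < g := by
      refine Nat.div_lt_of_lt_mul ?_
      have : 0 < M * g := Nat.mul_pos hM0 hg0
      omega
    omega
  have h1 := card_le_mul_card_image (f := fun r => w r k) F g hfib
  calc F.card ≤ g * (F.image fun r => w r k).card := h1
    _ ≤ g * (2 * H / g + 1) := Nat.mul_le_mul_left _ hdig
    _ = g * (2 * H / g) + g := by ring
    _ ≤ 2 * H + g := Nat.add_le_add_right (Nat.mul_div_le _ _) _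
    _ ≤ 6 * H := by omega

theorem RR_all {n H : ℕ} {a b : ℤ} (hab : IsCoprime a b) (hH : 1 ≤ H) (ha : 2 * (H : ℤ) < |a|) (k : ℕ) :
    (RR n H a b (k + 1)).card ≤ (6 * H) ^ k * (RR n H a b 1).card := by
  induction k with
  | zero => rw [pow_zero, one_mul]
  | succ k ih =>
    refine (RR_succ hab hH ha (by omega)).trans ?_
    calc 6 * H * (RR n H a b (k + 1)).card ≤ 6 * H * ((6 * H) ^ k * (RR n H a b 1).card) :=
          Nat.mul_le_mul_left _ ih
      _ = (6 * H) ^ (k + 1) * (RR n H a b 1).card := by rw [pow_succ]; ring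

end Pool.Agent.U62.HY
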