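import Mathlib
import Pool.Agent.U62.HY.Dig
import Pool.Agent.U62.HY.Mod

set_option autoImplicit false

/-!
# The number of the binary forms with a square value at a point of large height
-/

namespace Pool.Agent.U62.HY

open Finset

/-- the square roots of `c b ^ n` modulo `q` -/
theorem roots_card {n : ℕ} {a b : ℤ} (hab : IsCoprime a b) (ha : a ≠ 0) (c : ℤ) :
    ((range a.natAbs).filter fun r : ℕ => a ∣ (r : ℤ) ^ 2 - c * b ^ n).card ≤
      ∑ d ∈ a.natAbs.divisors, if (Nat.gcd d (a.natAbs / d)) ^ 2 ∣ 4 * c.natAbs then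
        Nat.gcd d (a.natAbs / d) else 0 := by
  classical
  obtain ⟨q, hq⟩ : ∃ q : ℕ, q = a.natAbs := ⟨_, rfl⟩
  rw [← hq]
  have hq0 : 0 < q := by rw [hq]; exact Int.natAbs_pos.2 ha
  have hdq : ∀ x : ℤ, a ∣ x ↔ (q : ℤ) ∣ x := fun x => by rw [hq, Int.natAbs_dvd]
  obtain ⟨Z, hZ⟩ : ∃ Z : Finset ℕ, Z = (range q).filter fun r : ℕ => a ∣ (r : ℤ) ^ 2 - c * b ^ n := ⟨_, rfl⟩
  rw [← hZ]
  rcases Z.eq_empty_or_nonempty with hZe | ⟨r₀, hr₀⟩
  · rw [hZe, card_empty]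
    exact Nat.zero_le _
  have hmem : ∀ r, r ∈ Z ↔ r < q ∧ a ∣ (r : ℤ) ^ 2 - c * b ^ n := fun r => by
    rw [hZ, mem_filter, mem_range]
  obtain ⟨W, hW⟩ : ∃ W : ℕ → Finset ℕ, W = fun d : ℕ => Z.filter fun r : ℕ => ((d : ℤ) ∣ (r : ℤ) - r₀) ∧
      (((q / d : ℕ) : ℤ) ∣ (r : ℤ) + r₀) := ⟨_, rfl⟩
  have hcov : Z ⊆ q.divisors.biUnion W := by
    intro r hr
    obtain ⟨d, hd⟩ : ∃ d : ℕ, d = Int.gcd (q : ℤ) ((r : ℤ) - r₀) := ⟨_, rfl⟩
    have hdq' : (d : ℤ) ∣ (q : ℤ) := by rw [hd]; exact Int.gcd_dvd_left _ _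
    have hdr : (d : ℤ) ∣ (r : ℤ) - r₀ := by rw [hd]; exact Int.gcd_dvd_right _ _
    have hdn : d ∣ q := by exact_mod_cast hdq'
    rw [mem_biUnion]
    refine ⟨d, Nat.mem_divisors.2 ⟨hdn, hq0.ne'⟩, ?_⟩
    rw [hW]
    refine mem_filter.2 ⟨hr, hdr, ?_⟩
    have h1 := ((hmem r).1 hr).2
    have h2 := ((hmem r₀).1 hr₀).2
    have h3 : (q : ℤ) ∣ ((r : ℤ) - r₀) * ((r : ℤ) + r₀) := by
      rw [← hdq]
      have e : ((r : ℤ) - r₀) * ((r : ℤ) + r₀) = ((r : ℤ) ^ 2 - c * b ^ n) - ((r₀ : ℤ) ^ 2 - c * b ^ n) := by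
        ring
      rw [e]
      exact dvd_sub h1 h2
    have h5 : ((r : ℤ) - r₀) * ((r : ℤ) + r₀) ≡ ((r : ℤ) - r₀) * 0 [ZMOD (q : ℤ)] := by
      rw [mul_zero]
      exact (Int.modEq_zero_iff_dvd).2 h3
    have h6 := Int.ModEq.cancel_left_div_gcd (by exact_mod_cast hq0) h5
    have h8 := (Int.modEq_zero_iff_dvd).1 h6
    rw [← hd] at h8
    push_cast
    exact h8
  refine (card_le_card hcov).trans (card_biUnion_le.trans (sum_le_sum fun d hd => ?_))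
  obtain ⟨hdq', -⟩ := Nat.mem_divisors.1 hd
  have hd0 : 0 < d := Nat.pos_of_dvd_of_pos hdq' hq0
  obtain ⟨δ, hδ⟩ : ∃ δ : ℕ, δ = Nat.gcd d (q / d) := ⟨_, rfl⟩
  rw [← hδ]
  have hδ0 : 0 < δ := by rw [hδ]; exact Nat.gcd_pos_of_pos_left _ hd0
  have hδd : δ ∣ d := by rw [hδ]; exact Nat.gcd_dvd_left _ _
  have hδq : δ ∣ q / d := by rw [hδ]; exact Nat.gcd_dvd_right _ _
  have hδ2 : δ ^ 2 ∣ q := by
    have := mul_dvd_mul hδd hδq
    rw [Nat.mul_div_cancel' hdq'] at this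
    rwa [pow_two]
  have hδa : ((δ : ℤ)) ^ 2 ∣ a := by
    have h1 : ((δ ^ 2 : ℕ) : ℤ) ∣ (q : ℤ) := by exact_mod_cast hδ2
    rw [hq, Int.natCast_natAbs] at h1
    push_cast at h1
    exact (dvd_abs _ _).1 h1
  have hWmem : ∀ r, r ∈ W d ↔ r ∈ Z ∧ ((d : ℤ) ∣ (r : ℤ) - r₀) ∧ (((q / d : ℕ) : ℤ) ∣ (r : ℤ) + r₀) := by
    intro r
    rw [hW]
    exact mem_filter
  by_cases hdiv : δ ^ 2 ∣ 4 * c.natAbs
  · rw [if_pos hdiv]
    obtain ⟨M, hM⟩ : ∃ M : ℕ, M = Nat.lcm d (q / d) := ⟨_, rfl⟩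
    have hMδ : δ * M = q := by
      rw [hδ, hM, Nat.gcd_mul_lcm, Nat.mul_div_cancel' hdq']
    have hM0 : 1 ≤ M := by
      rcases Nat.eq_zero_or_pos M with h | h
      · rw [h, mul_zero] at hMδ
        omega
      · exact h
    have h1 : ((W d).image fun r : ℕ => (r : ℤ)).card ≤ (q - 1) / M + 1 := by
      refine card_class _ 0 (q - 1) M hM0 ?_ ?_
      · intro z hz
        obtain ⟨r, hr, rfl⟩ := mem_image.1 hz
        have h2 := ((hmem r).1 ((hWmem r).1 hr).1).1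
        refine ⟨Int.natCast_nonneg r, ?_⟩
        rw [zero_add]
        have : r ≤ q - 1 := by omega
        exact_mod_cast this
      · intro z hz z' hz'
        obtain ⟨r, hr, rfl⟩ := mem_image.1 hz
        obtain ⟨r', hr', rfl⟩ := mem_image.1 hz'
        obtain ⟨-, h1, h2⟩ := (hWmem r).1 hr
        obtain ⟨-, h3, h4⟩ := (hWmem r').1 hr'
        have h5 : (d : ℤ) ∣ (r : ℤ) - r' := by
          have e : (r : ℤ) - r' = ((r : ℤ) - r₀) - ((r' : ℤ) - r₀) := by ring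
          rw [e]
          exact dvd_sub h1 h3
        have h6 : ((q / d : ℕ) : ℤ) ∣ (r : ℤ) - r' := by
          have e : (r : ℤ) - r' = ((r : ℤ) + r₀) - ((r' : ℤ) + r₀) := by ring
          rw [e]
          exact dvd_sub h2 h4
        have h7 : ((Nat.lcm d (q / d) : ℕ) : ℤ) ∣ (r : ℤ) - r' := by
          rw [Int.natCast_dvd] at h5 h6 ⊢
          exact Nat.lcm_dvd h5 h6
        rw [hM]
        exact h7
    rw [card_image_of_injective _ Nat.cast_injective] at h1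
    refine h1.trans ?_
    have h2 : (q - 1) / M < δ := by
      rw [Nat.div_lt_iff_lt_mul hM0, hMδ]
      omega
    omega
  · rw [if_neg hdiv]
    refine le_of_eq (card_eq_zero.2 (eq_empty_of_forall_notMem fun r hr => hdiv ?_))
    obtain ⟨-, h1, h2⟩ := (hWmem r).1 hr
    have h3 : (δ : ℤ) ∣ 2 * (r₀ : ℤ) := by
      have h4 : (δ : ℤ) ∣ (r : ℤ) - r₀ := (by exact_mod_cast hδd : (δ : ℤ) ∣ (d : ℤ)).trans h1
      have h5 : (δ : ℤ) ∣ (r : ℤ) + r₀ := (by exact_mod_cast hδq : (δ : ℤ) ∣ ((q / d : ℕ) : ℤ)).trans h2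
      have e : 2 * (r₀ : ℤ) = ((r : ℤ) + r₀) - ((r : ℤ) - r₀) := by ring
      rw [e]
      exact dvd_sub h5 h4
    have h4 : (δ : ℤ) ^ 2 ∣ 4 * c * b ^ n := by
      have h5 := hδa.trans ((hmem r₀).1 hr₀).2
      have h6 := pow_dvd_pow_of_dvd h3 2
      have e : 4 * c * b ^ n = (2 * (r₀ : ℤ)) ^ 2 - 4 * ((r₀ : ℤ) ^ 2 - c * b ^ n) := by ring
      rw [e]
      exact dvd_sub h6 (Dvd.dvd.mul_left h5 _)
    have h5 : (δ : ℤ) ^ 2 ∣ 4 * c := ((hab.of_isCoprime_of_dvd_left hδa).pow_right).dvd_of_dvd_mul_right h4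
    have h6 := Int.natAbs_dvd_natAbs.2 h5
    rw [Int.natAbs_pow, Int.natAbs_natCast, Int.natAbs_mul] at h6
    exact h6

theorem cnt_mult (H D : ℕ) (hD : 1 ≤ D) : ((Icc 1 H).filter fun k => D ∣ 4 * k).card ≤ 4 * H / D := by
  classical
  have h1 : ((Icc 1 H).filter fun k => D ∣ 4 * k).card ≤ (Icc 1 (4 * H / D)).card := by
    refine card_le_card_of_injOn (fun k => 4 * k / D) (fun k hk => ?_) fun k hk k' hk' h => ?_
    · obtain ⟨h1, h2⟩ := mem_filter.1 (mem_coe.1 hk)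
      rw [mem_Icc] at h1
      rw [mem_coe, mem_Icc]
      refine ⟨Nat.div_pos (Nat.le_of_dvd (by omega) h2) hD, Nat.div_le_div_right (by omega)⟩
    · obtain ⟨-, u, hu⟩ := mem_filter.1 (mem_coe.1 hk)
      obtain ⟨-, v, hv⟩ := mem_filter.1 (mem_coe.1 hk')
      have h' : 4 * k / D = 4 * k' / D := h
      rw [hu, hv, Nat.mul_div_cancel_left _ hD, Nat.mul_div_cancel_left _ hD] at h'
      rw [h'] at hu
      omega
  rwa [Nat.card_Icc, Nat.add_sub_cancel] at h1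

/-- **the first digit** -/
theorem RR_one {n H : ℕ} {a b : ℤ} (hab : IsCoprime a b) (ha : a ≠ 0) :
    ((RR n H a b 1).card : ℝ) ≤ 8 * H * (a.natAbs.divisors.card : ℝ) := by
  classical
  obtain ⟨q, hq⟩ : ∃ q : ℕ, q = a.natAbs := ⟨_, rfl⟩
  have hsub : RR n H a b 1 ⊆ ((Icc (-(H : ℤ)) H).erase 0).biUnion
      fun c => (range a.natAbs).filter fun r : ℕ => a ∣ (r : ℤ) ^ 2 - c * b ^ n := by
    intro r hr
    obtain ⟨h1, c, hc, hc0, hd⟩ := mem_RR.1 hr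
    rw [mem_biUnion]
    refine ⟨c 0, mem_erase.2 ⟨hc0, mem_Icc.2 (abs_le.1 (hc 0))⟩, mem_filter.2 ⟨?_, ?_⟩⟩
    · rw [mem_range]
      rwa [pow_one] at h1
    · have h3 : low n 1 a b c = c 0 * b ^ n := by
        unfold low
        simp
      rw [pow_one, h3] at hd
      exact hd
  have h1 : (RR n H a b 1).card ≤ ∑ c ∈ (Icc (-(H : ℤ)) H).erase 0, ∑ d ∈ a.natAbs.divisors,
      if (Nat.gcd d (a.natAbs / d)) ^ 2 ∣ 4 * c.natAbs then Nat.gcd d (a.natAbs / d) else 0 :=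
    (card_le_card hsub).trans (card_biUnion_le.trans (sum_le_sum fun c _ => roots_card hab ha c))
  have h2 : ((RR n H a b 1).card : ℝ) ≤ ∑ d ∈ a.natAbs.divisors, ∑ c ∈ (Icc (-(H : ℤ)) H).erase 0,
      if (Nat.gcd d (a.natAbs / d)) ^ 2 ∣ 4 * c.natAbs then (Nat.gcd d (a.natAbs / d) : ℝ) else 0 := by
    rw [sum_comm]
    have := (Nat.cast_le (α := ℝ)).2 h1
    push_cast at this
    exact this
  refine h2.trans ?_
  have h3 : ∀ d ∈ a.natAbs.divisors, ∑ c ∈ (Icc (-(H : ℤ)) H).erase 0,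
      (if (Nat.gcd d (a.natAbs / d)) ^ 2 ∣ 4 * c.natAbs then (Nat.gcd d (a.natAbs / d) : ℝ) else 0) ≤
      8 * H := by
    intro d hd
    obtain ⟨hdq, hq0⟩ := Nat.mem_divisors.1 hd
    obtain ⟨δ, hδ⟩ : ∃ δ : ℕ, δ = Nat.gcd d (a.natAbs / d) := ⟨_, rfl⟩
    rw [← hδ]
    have hδ0 : 0 < δ := by
      rw [hδ]
      exact Nat.gcd_pos_of_pos_left _ (Nat.pos_of_dvd_of_pos hdq (Nat.pos_of_ne_zero hq0))
    have h4 := sum_int H (fun k => if δ ^ 2 ∣ 4 * k then (δ : ℝ) else 0) fun k => by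
      split_ifs
      · positivity
      · exact le_rfl
    refine h4.trans ?_
    rw [← sum_filter, sum_const, nsmul_eq_mul]
    have h5 := cnt_mult H (δ ^ 2) (pow_pos hδ0 2)
    have h6 : ((Icc 1 H).filter fun k => δ ^ 2 ∣ 4 * k).card * δ ≤ 4 * H := by
      calc ((Icc 1 H).filter fun k => δ ^ 2 ∣ 4 * k).card * δ ≤ 4 * H / δ ^ 2 * δ ^ 2 :=
            Nat.mul_le_mul h5 (by nlinarith)
        _ ≤ 4 * H := Nat.div_mul_le_self _ _
    have h7 : ((((Icc 1 H).filter fun k => δ ^ 2 ∣ 4 * k).card : ℕ) : ℝ) * (δ : ℝ) ≤ 4 * H := by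
      exact_mod_cast h6
    linarith
  refine (sum_le_sum h3).trans (le_of_eq ?_)
  rw [sum_const, nsmul_eq_mul]
  ring

/-- the size of the value -/
theorem low_le {n k H : ℕ} {a b : ℤ} (hba : |b| ≤ |a|) {c : ℕ → ℤ} (hk : k ≤ n + 1)
    (hc : ∀ j, |c j| ≤ (H : ℤ)) : |low n k a b c| ≤ k * H * |a| ^ n := by
  unfold low
  refine (abs_sum_le_sum_abs _ _).trans ?_
  have h1 : ∀ j ∈ range k, |c j * (b ^ (n - j) * a ^ j)| ≤ H * |a| ^ n := by
    intro j hj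
    rw [mem_range] at hj
    rw [abs_mul, abs_mul, abs_pow, abs_pow]
    have h2 : |b| ^ (n - j) * |a| ^ j ≤ |a| ^ n := by
      have h3 : |b| ^ (n - j) ≤ |a| ^ (n - j) := pow_le_pow_left₀ (abs_nonneg _) hba _
      calc |b| ^ (n - j) * |a| ^ j ≤ |a| ^ (n - j) * |a| ^ j :=
            mul_le_mul_of_nonneg_right h3 (by positivity)
        _ = |a| ^ n := by
            rw [← pow_add]
            congr 1
            omega
    exact mul_le_mul (hc j) h2 (by positivity) (Int.natCast_nonneg H)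
  refine (sum_le_sum h1).trans (le_of_eq ?_)
  rw [sum_const, card_range, nsmul_eq_mul]
  ring

/-- **the number of the forms with a square value** -/
theorem count_forms (e : ℕ) (he : 1 ≤ e) : ∃ C : ℝ, 0 < C ∧ ∀ H : ℕ, 1 ≤ H → ∀ a b : ℤ, IsCoprime a b →
    2 * (H : ℤ) < |a| → |b| ≤ |a| → ∀ (ι : Type) (S : Finset ι) (co : ι → ℕ → ℤ),
    (∀ f ∈ S, (∀ j, |co f j| ≤ (H : ℤ)) ∧ co f 0 ≠ 0 ∧ ∃ y : ℤ, y ^ 2 = low (2 * e) (2 * e + 1) a b (co f)) →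
    (∀ f ∈ S, ∀ g ∈ S, (∀ j < 2 * e + 1, co f j = co g j) → f = g) →
    (S.card : ℝ) ≤ C * ((H : ℝ) ^ e * √(H : ℝ)) * (a.natAbs.divisors.card : ℝ) := by
  classical
  refine ⟨6 ^ (e - 1) * 8 * (√((2 * e + 1 : ℕ) : ℝ) + 1), by positivity,
    fun H hH a b hab ha hba ι S co hS hinj => ?_⟩
  have hHr : (1 : ℝ) ≤ H := by exact_mod_cast hH
  obtain ⟨q, hq⟩ : ∃ q : ℕ, q = a.natAbs := ⟨_, rfl⟩
  have ha0 : a ≠ 0 := by
    rintro rfl
    rw [abs_zero] at ha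
    have : (0 : ℤ) ≤ H := Int.natCast_nonneg H
    linarith
  have hq0 : 0 < q := by rw [hq]; exact Int.natAbs_pos.2 ha0
  have hqe : 0 < q ^ e := pow_pos hq0 e
  -- the square root
  have hy : ∀ f, ∃ y : ℕ, f ∈ S → (y : ℤ) ^ 2 = low (2 * e) (2 * e + 1) a b (co f) := by
    intro f
    by_cases h : f ∈ S
    · obtain ⟨-, -, y, hy⟩ := hS f h
      exact ⟨y.natAbs, fun _ => by rw [Int.natAbs_sq]; exact hy⟩
    · exact ⟨0, fun h' => absurd h' h⟩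
  choose y hy using hy
  obtain ⟨Y, hY⟩ : ∃ Y : ℕ, Y = ⌊√((2 * e + 1 : ℕ) : ℝ) * √(H : ℝ)⌋₊ := ⟨_, rfl⟩
  have hmaps : Set.MapsTo (fun f => (y f % q ^ e, y f / q ^ e)) (S : Set ι)
      ((RR (2 * e) H a b e ×ˢ range (Y + 1) : Finset (ℕ × ℕ)) : Set (ℕ × ℕ)) := by
    intro f hf
    have hf' := mem_coe.1 hf
    obtain ⟨hc, hc0, -⟩ := hS f hf'
    have hyf := hy f hf'
    rw [mem_coe, mem_product]
    constructor
    · refine mem_RR.2 ⟨by rw [← hq]; exact Nat.mod_lt _ hqe, co f, hc, hc0, ?_⟩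
      have h2 := low_dvd (2 * e) a b (co f) (show e ≤ 2 * e + 1 by omega)
      have h3 : a ^ e ∣ (y f : ℤ) - ((y f % q ^ e : ℕ) : ℤ) := by
        rw [dvd_iff_nat, ← hq]
        refine ⟨((y f / q ^ e : ℕ) : ℤ), ?_⟩
        have := Nat.mod_add_div (y f) (q ^ e)
        have h4 : ((y f % q ^ e : ℕ) : ℤ) + ((q ^ e : ℕ) : ℤ) * ((y f / q ^ e : ℕ) : ℤ) = (y f : ℤ) := by
          exact_mod_cast this
        linarith
      have e1 : ((y f % q ^ e : ℕ) : ℤ) ^ 2 - low (2 * e) e a b (co f) =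
        (low (2 * e) (2 * e + 1) a b (co f) - low (2 * e) e a b (co f)) -
        ((y f : ℤ) - ((y f % q ^ e : ℕ) : ℤ)) * ((y f : ℤ) + ((y f % q ^ e : ℕ) : ℤ)) := by
        rw [← hyf]
        ring
      show a ^ e ∣ ((y f % q ^ e : ℕ) : ℤ) ^ 2 - low (2 * e) e a b (co f)
      rw [e1]
      exact dvd_sub h2 (Dvd.dvd.mul_right h3 _)
    · rw [mem_range, Nat.lt_succ_iff, hY]
      refine Nat.le_floor ?_
      have h1 := low_le (n := 2 * e) (k := 2 * e + 1) hba le_rfl hc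
      rw [← hyf, abs_of_nonneg (by positivity)] at h1
      have h2 : (y f : ℝ) ^ 2 ≤ ((2 * e + 1 : ℕ) : ℝ) * H * ((q : ℝ) ^ e) ^ 2 := by
        have h3 : ((|a| : ℤ) : ℝ) = q := by
          rw [hq, Nat.cast_natAbs]
        have h4 : (((y f : ℤ) ^ 2 : ℤ) : ℝ) ≤ ((((2 * e + 1 : ℕ) : ℤ) * H * |a| ^ (2 * e) : ℤ) : ℝ) := by
          exact_mod_cast h1
        rw [Int.cast_mul, Int.cast_mul, Int.cast_pow |a|, h3] at h4
        push_cast at h4 ⊢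
        rw [← pow_mul, mul_comm e 2]
        exact h4
      have h3 : (y f : ℝ) ≤ √((2 * e + 1 : ℕ) : ℝ) * √(H : ℝ) * (q : ℝ) ^ e := by
        rw [← Real.sqrt_mul (by positivity)]
        refine le_of_sq_le_sq ?_ (by positivity)
        rw [mul_pow, Real.sq_sqrt (by positivity)]
        exact h2
      calc ((y f / q ^ e : ℕ) : ℝ) ≤ (y f : ℝ) / ((q ^ e : ℕ) : ℝ) := Nat.cast_div_le
        _ ≤ √((2 * e + 1 : ℕ) : ℝ) * √(H : ℝ) := by
            rw [div_le_iff₀ (by exact_mod_cast hqe)]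
            push_cast at h3 ⊢
            exact h3
  have hinj' : Set.InjOn (fun f => (y f % q ^ e, y f / q ^ e)) (S : Set ι) := by
    intro f hf g hg h
    have hf' := mem_coe.1 hf
    have hg' := mem_coe.1 hg
    obtain ⟨h1, h2⟩ := Prod.mk.inj h
    have h3 : y f = y g := by
      rw [← Nat.mod_add_div (y f) (q ^ e), ← Nat.mod_add_div (y g) (q ^ e), h1, h2]
    refine hinj f hf' g hg' (digits hab ha (hS f hf').1 (hS g hg').1 (n := 2 * e) ?_)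
    rw [← hy f hf', ← hy g hg', h3, sub_self]
    exact dvd_zero _
  have h1 := card_le_card_of_injOn _ hmaps hinj'
  rw [card_product, card_range] at h1
  have h2 : (RR (2 * e) H a b e).card ≤ (6 * H) ^ (e - 1) * (RR (2 * e) H a b 1).card := by
    have := RR_all (n := 2 * e) hab hH ha (e - 1)
    rwa [Nat.sub_add_cancel he] at this
  have h3 := RR_one (n := 2 * e) (H := H) hab ha0
  have h4 : ((Y + 1 : ℕ) : ℝ) ≤ (√((2 * e + 1 : ℕ) : ℝ) + 1) * √(H : ℝ) := by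
    have h5 : (Y : ℝ) ≤ √((2 * e + 1 : ℕ) : ℝ) * √(H : ℝ) := by
      rw [hY]
      exact Nat.floor_le (by positivity)
    have h6 : 1 ≤ √(H : ℝ) := Real.one_le_sqrt.2 hHr
    push_cast at h5 ⊢
    linarith
  have h5 : (S.card : ℝ) ≤ ((RR (2 * e) H a b e).card : ℝ) * ((Y + 1 : ℕ) : ℝ) := by exact_mod_cast h1
  have h6 : ((RR (2 * e) H a b e).card : ℝ) ≤ (6 * (H : ℝ)) ^ (e - 1) * ((RR (2 * e) H a b 1).card : ℝ) := by
    exact_mod_cast h2
  have h7 : ((RR (2 * e) H a b e).card : ℝ) ≤ (6 * (H : ℝ)) ^ (e - 1) * (8 * H * (a.natAbs.divisors.card : ℝ)) :=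
    h6.trans (mul_le_mul_of_nonneg_left h3 (by positivity))
  have h8 : (H : ℝ) ^ e = (H : ℝ) ^ (e - 1) * H := by
    rw [← pow_succ, Nat.sub_add_cancel he]
  calc (S.card : ℝ) ≤ ((RR (2 * e) H a b e).card : ℝ) * ((Y + 1 : ℕ) : ℝ) := h5
    _ ≤ ((6 * (H : ℝ)) ^ (e - 1) * (8 * H * (a.natAbs.divisors.card : ℝ))) *
        ((√((2 * e + 1 : ℕ) : ℝ) + 1) * √(H : ℝ)) := mul_le_mul h7 h4 (by positivity) (by positivity)
    _ = _ := by rw [h8, mul_pow]; ring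

end Pool.Agent.U62.HY
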