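import Mathlib
import Pool.Agent.U62.HY.Dig

set_option autoImplicit false

/-!
# The number of the polynomials with a square value at a large integer
-/

namespace Pool.Agent.U62.HY

open Polynomial Finset

/-- the length of the interval of the square roots -/
theorem len_le {H d s δ : ℕ} (hH : 1 ≤ H) (hδ : δ ≤ 1) (hd : d = 2 * s + δ) {q c : ℝ} (hq : (H : ℝ) ≤ q)
    (hc : 0 < c) : 4 * H * q ^ s / (2 * √(c * q ^ d / 2)) ≤ √(8 * (H : ℝ) ^ (2 - δ)) * (1 / √c) := by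
  have hHr : (1 : ℝ) ≤ H := by exact_mod_cast hH
  have hq0 : 0 < q := by linarith
  have hY : 0 < c * q ^ d / 2 := by positivity
  have h1 : √(8 * (H : ℝ) ^ (2 - δ)) * (1 / √c) = √(8 * (H : ℝ) ^ (2 - δ) / c) := by
    rw [Real.sqrt_div (by positivity), mul_one_div]
  rw [h1]
  refine Real.le_sqrt_of_sq_le ?_
  rw [div_pow, mul_pow 2, Real.sq_sqrt hY.le, div_le_div_iff₀ (by positivity) hc]
  have h2 : (H : ℝ) ^ 2 = (H : ℝ) ^ (2 - δ) * (H : ℝ) ^ δ := by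
    rw [← pow_add]
    congr 1
    omega
  have h3 : q ^ d = (q ^ s) ^ 2 * q ^ δ := by
    rw [hd, pow_add, ← pow_mul, mul_comm s 2]
  have h4 : (H : ℝ) ^ δ ≤ q ^ δ := pow_le_pow_left₀ (by positivity) hq δ
  have h5 : (4 * H * q ^ s) ^ 2 * c = 16 * ((H : ℝ) ^ (2 - δ) * (q ^ s) ^ 2 * c) * (H : ℝ) ^ δ := by
    have : (4 * H * q ^ s) ^ 2 * c = 16 * (H : ℝ) ^ 2 * (q ^ s) ^ 2 * c := by ring
    rw [this, h2]
    ring
  have h6 : 8 * (H : ℝ) ^ (2 - δ) * (2 ^ 2 * (c * q ^ d / 2)) =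
      16 * ((H : ℝ) ^ (2 - δ) * (q ^ s) ^ 2 * c) * q ^ δ := by
    rw [h3]
    ring
  rw [h5, h6]
  exact mul_le_mul_of_nonneg_left h4 (by positivity)

/-- the square root of the value -/
noncomputable def root (x : ℤ) (f : ℤ[X]) : ℕ := (f.eval x).toNat.sqrt

theorem root_sq {x : ℤ} {f : ℤ[X]} (h : ∃ y : ℤ, y ^ 2 = f.eval x) :
    ((root x f : ℕ) : ℤ) ^ 2 = f.eval x := by
  obtain ⟨y, hy⟩ := h
  have h1 : (f.eval x).toNat = y.natAbs * y.natAbs := by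
    rw [← hy, pow_two, ← Int.natAbs_mul_self]
    exact Int.toNat_natCast _
  unfold root
  rw [h1, Nat.sqrt_eq, ← hy, Int.natAbs_sq]

/-- **the polynomials of degree `d` with a square value at `x`** -/
theorem count_deg (d : ℕ) (hd : 1 ≤ d) : ∃ C : ℝ, 0 < C ∧ ∀ H : ℕ, 1 ≤ H → ∀ x : ℤ,
    4 * (H : ℝ) ≤ |(x : ℝ)| → ∀ S : Finset ℤ[X],
    (∀ f ∈ S, f.natDegree = d ∧ (∀ k, |f.coeff k| ≤ (H : ℤ)) ∧ ∃ y : ℤ, y ^ 2 = f.eval x) →
    (S.card : ℝ) ≤ C * (H : ℝ) ^ (((d : ℝ) + 1) / 2) := by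
  classical
  obtain ⟨s, hs⟩ : ∃ s, s = d / 2 := ⟨_, rfl⟩
  obtain ⟨δ, hδ⟩ : ∃ δ, δ = d % 2 := ⟨_, rfl⟩
  obtain ⟨m, hm⟩ : ∃ m, m = d - s - 1 := ⟨_, rfl⟩
  have hd2 : d = 2 * s + δ := by omega
  have hδ1 : δ ≤ 1 := by omega
  refine ⟨3 ^ m * (4 * √8 + 2), by positivity, fun H hH x hx S hS => ?_⟩
  have hHr : (1 : ℝ) ≤ H := by exact_mod_cast hH
  obtain ⟨q, hq⟩ : ∃ q : ℝ, q = |(x : ℝ)| := ⟨_, rfl⟩
  rw [← hq] at hx
  have hq4 : 4 ≤ q := by linarith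
  have hxZ : 2 * (H : ℤ) < |x| := by
    have h1 : (2 * (H : ℤ) : ℝ) < ((|x| : ℤ) : ℝ) := by
      push_cast
      rw [← hq]
      linarith
    exact_mod_cast h1
  obtain ⟨E, hE⟩ : ∃ E : ℝ, E = √(8 * (H : ℝ) ^ (2 - δ)) := ⟨_, rfl⟩
  have hE0 : 0 ≤ E := by rw [hE]; exact Real.sqrt_nonneg _
  obtain ⟨τ, hτ⟩ : ∃ τ : ℤ[X] → ℤ × (Fin m → ℤ), τ = fun f => (f.coeff d, fun k => f.coeff (s + 1 + k)) :=
    ⟨_, rfl⟩
  obtain ⟨t, ht⟩ : ∃ t : Finset (ℤ × (Fin m → ℤ)), t = ((Icc (-(H : ℤ)) H).erase 0) ×ˢ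
    Fintype.piFinset (fun _ : Fin m => Icc (-(H : ℤ)) H) := ⟨_, rfl⟩
  have hmaps : Set.MapsTo τ S t := by
    intro f hf
    obtain ⟨h1, h2, -⟩ := hS f hf
    rw [ht, hτ, mem_coe, mem_product, mem_erase, mem_Icc, ← abs_le, Fintype.mem_piFinset]
    refine ⟨⟨?_, h2 d⟩, fun k => ?_⟩
    · show f.coeff d ≠ 0
      rw [← h1]
      have h3 : f ≠ 0 := by
        rintro rfl
        rw [natDegree_zero] at h1
        omega
      exact leadingCoeff_ne_zero.2 h3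
    · rw [mem_Icc, ← abs_le]
      exact h2 _
  have hfib : ∀ b ∈ t, ((S.filter fun f => τ f = b).card : ℝ) ≤ E * (1 / √((b.1.natAbs : ℕ) : ℝ)) + 1 := by
    rintro ⟨c, v⟩ hb
    rw [ht, mem_product, mem_erase] at hb
    have hc : 0 < |(c : ℝ)| := abs_pos.2 (by exact_mod_cast hb.1.1)
    have hcn : ((c.natAbs : ℕ) : ℝ) = |(c : ℝ)| := by
      rw [Nat.cast_natAbs]
      push_cast
      rfl
    show _ ≤ E * (1 / √((c.natAbs : ℕ) : ℝ)) + 1
    rw [hcn]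
    have hq0 : 0 < q := by linarith
    have hY : 0 < |(c : ℝ)| * q ^ d / 2 := by positivity
    refine (card_le_of_close (S.filter fun f => τ f = (c, v)) (root x) ?_
      (D := 4 * H * q ^ s / (2 * √(|(c : ℝ)| * q ^ d / 2))) (by positivity) ?_).trans ?_
    · intro f hf g hg hfg
      obtain ⟨hf1, -⟩ := mem_filter.1 (mem_coe.1 hf)
      obtain ⟨hg1, -⟩ := mem_filter.1 (mem_coe.1 hg)
      obtain ⟨-, h2, h3⟩ := hS f hf1
      obtain ⟨-, h5, h6⟩ := hS g hg1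
      refine eval_inj hxZ h2 h5 ?_
      rw [← root_sq h3, ← root_sq h6]
      exact congrArg (fun n : ℕ => (n : ℤ) ^ 2) hfg
    · intro f hf g hg
      obtain ⟨hf1, hf2⟩ := mem_filter.1 hf
      obtain ⟨hg1, hg2⟩ := mem_filter.1 hg
      obtain ⟨h1, h2, h3⟩ := hS f hf1
      obtain ⟨h4, h5, h6⟩ := hS g hg1
      have hfr : ((root x f : ℕ) : ℝ) ^ 2 = ((f.eval x : ℤ) : ℝ) := by exact_mod_cast root_sq h3
      have hgr : ((root x g : ℕ) : ℝ) ^ 2 = ((g.eval x : ℤ) : ℝ) := by exact_mod_cast root_sq h6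
      rw [hτ] at hf2 hg2
      have hf3 : f.coeff d = c := congrArg Prod.fst hf2
      have hg3 : g.coeff d = c := congrArg Prod.fst hg2
      have hf4 : (fun k : Fin m => f.coeff (s + 1 + k)) = v := congrArg Prod.snd hf2
      have hg4 : (fun k : Fin m => g.coeff (s + 1 + k)) = v := congrArg Prod.snd hg2
      have hval : ∀ p : ℤ[X], p.natDegree = d → (∀ k, |p.coeff k| ≤ (H : ℤ)) → p.coeff d = c →
          0 ≤ ((p.eval x : ℤ) : ℝ) → |(c : ℝ)| * q ^ d / 2 ≤ ((p.eval x : ℤ) : ℝ) := by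
        intro p hp1 hp2 hp3 hp4
        have h7 := value_ge hd hH (by rw [← hq]; exact hx) hp1 hp2
        rw [hp3, ← hq, abs_of_nonneg hp4] at h7
        linarith
      refine sqrt_close (Nat.cast_nonneg _) (Nat.cast_nonneg _) hY ?_ ?_ ?_
      · rw [hfr]
        exact hval f h1 h2 hf3 (by rw [← hfr]; positivity)
      · rw [hgr]
        exact hval g h4 h5 hg3 (by rw [← hgr]; positivity)
      · rw [hfr, hgr, hq]
        refine near (by rw [← hq]; linarith) (d := d) (s := s) (by omega) h1.le h4.le h2 h5 fun k hk => ?_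
        rcases lt_trichotomy k d with hkd | hkd | hkd
        · have h7 : k = s + 1 + ((⟨k - (s + 1), by omega⟩ : Fin m) : ℕ) := by
            show k = s + 1 + (k - (s + 1))
            omega
          have h8 := congrFun (hf4.trans hg4.symm) ⟨k - (s + 1), by omega⟩
          rw [h7]
          exact h8
        · rw [hkd, hf3, hg3]
        · rw [coeff_eq_zero_of_natDegree_lt (by omega), coeff_eq_zero_of_natDegree_lt (by omega)]
    · have h1 := len_le hH hδ1 hd2 (q := q) (by linarith) hc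
      rw [← hE] at h1
      linarith
  have hcard := card_eq_sum_card_fiberwise hmaps
  have h1 : (S.card : ℝ) ≤ ∑ b ∈ t, (E * (1 / √((b.1.natAbs : ℕ) : ℝ)) + 1) := by
    rw [hcard]
    push_cast
    exact sum_le_sum hfib
  refine h1.trans ?_
  rw [ht, sum_product]
  simp only [sum_const, nsmul_eq_mul]
  rw [← mul_sum, Fintype.card_piFinset]
  simp only [Int.card_Icc, prod_const, card_univ, Fintype.card_fin]
  have h2 : (((H : ℤ) + 1 - -(H : ℤ)).toNat : ℕ) = 2 * H + 1 := by omega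
  rw [h2, sum_add_distrib, ← mul_sum]
  have h3 := sum_int H (fun n => 1 / √(n : ℝ)) fun n => by positivity
  have h4 := sum_sqrt H
  have h5 : (∑ c ∈ (Icc (-(H : ℤ)) H).erase 0, (1 : ℝ)) ≤ 2 * H := by
    rw [sum_const, nsmul_eq_mul, mul_one, card_erase_of_mem (by rw [mem_Icc]; omega), Int.card_Icc, h2]
    rw [Nat.add_sub_cancel]
    push_cast
    exact le_rfl
  have h6 : E * (∑ c ∈ (Icc (-(H : ℤ)) H).erase 0, 1 / √((c.natAbs : ℕ) : ℝ)) +
      ∑ c ∈ (Icc (-(H : ℤ)) H).erase 0, (1 : ℝ) ≤ E * (4 * √(H : ℝ)) + 2 * H := by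
    have : E * (∑ c ∈ (Icc (-(H : ℤ)) H).erase 0, 1 / √((c.natAbs : ℕ) : ℝ)) ≤ E * (4 * √(H : ℝ)) :=
      mul_le_mul_of_nonneg_left (by linarith) hE0
    linarith
  have h7 : E * (4 * √(H : ℝ)) + 2 * H ≤ (4 * √8 + 2) * √((H : ℝ) ^ (3 - δ)) := by
    have h8 : E * √(H : ℝ) = √8 * √((H : ℝ) ^ (3 - δ)) := by
      rw [hE, Real.sqrt_mul (by norm_num), mul_assoc, ← Real.sqrt_mul (by positivity), ← pow_succ]
      congr 3
      omega
    have h9 : (H : ℝ) ≤ √((H : ℝ) ^ (3 - δ)) := by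
      refine Real.le_sqrt_of_sq_le ?_
      exact pow_le_pow_right₀ hHr (by omega)
    nlinarith
  have h8 : ((2 * H + 1 : ℕ) : ℝ) ^ m ≤ (3 * (H : ℝ)) ^ m := by
    refine pow_le_pow_left₀ (by positivity) ?_ m
    push_cast
    linarith
  have h9 : √((H : ℝ) ^ (3 - δ)) = (H : ℝ) ^ (((3 - δ : ℕ) : ℝ) / 2) := by
    rw [Real.sqrt_eq_rpow, ← Real.rpow_natCast, ← Real.rpow_mul (by positivity)]
    congr 1
    ring
  have h10 : (H : ℝ) ^ m * √((H : ℝ) ^ (3 - δ)) = (H : ℝ) ^ (((d : ℝ) + 1) / 2) := by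
    rw [h9, ← Real.rpow_natCast, ← Real.rpow_add (by linarith)]
    congr 1
    have e1 : ((3 - δ : ℕ) : ℝ) = 3 - δ := by
      rw [Nat.cast_sub (by omega)]
      norm_num
    have e2 : (m : ℝ) = s + δ - 1 := by
      have : m + 1 = s + δ := by omega
      have h11 : ((m + 1 : ℕ) : ℝ) = ((s + δ : ℕ) : ℝ) := by rw [this]
      push_cast at h11
      linarith
    have e3 : (d : ℝ) = 2 * s + δ := by
      rw [hd2]
      push_cast
      ring
    rw [e1, e2, e3]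
    ring
  calc ((((2 * H + 1) ^ m : ℕ) : ℝ)) * (E * (∑ c ∈ (Icc (-(H : ℤ)) H).erase 0, 1 / √((c.natAbs : ℕ) : ℝ)) +
      ∑ c ∈ (Icc (-(H : ℤ)) H).erase 0, (1 : ℝ))
      ≤ (3 * (H : ℝ)) ^ m * ((4 * √8 + 2) * √((H : ℝ) ^ (3 - δ))) := by
        refine mul_le_mul ?_ (h6.trans h7) ?_ (by positivity)
        · rw [Nat.cast_pow]
          exact h8
        · exact add_nonneg (mul_nonneg hE0 (sum_nonneg fun c _ => by positivity))
            (sum_nonneg fun c _ => zero_le_one)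
    _ = 3 ^ m * (4 * √8 + 2) * ((H : ℝ) ^ m * √((H : ℝ) ^ (3 - δ))) := by rw [mul_pow]; ring
    _ = _ := by rw [h10]

end Pool.Agent.U62.HY
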