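import Mathlib
import Pool.Agent.U62.HY.Cnt

set_option autoImplicit false

/-!
# All polynomials with a square value at a large integer
-/

namespace Pool.Agent.U62.HY

open Polynomial Finset

theorem count_const {H : ℕ} (hH : 1 ≤ H) (S : Finset ℤ[X])
    (hS : ∀ f ∈ S, f.natDegree = 0 ∧ ∀ k, |f.coeff k| ≤ (H : ℤ)) : (S.card : ℝ) ≤ 3 * H := by
  classical
  have hHr : (1 : ℝ) ≤ H := by exact_mod_cast hH
  have hinj : Set.InjOn (fun f : ℤ[X] => f.coeff 0) S := by
    intro f hf g hg h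
    rw [Polynomial.eq_C_of_natDegree_eq_zero (hS f hf).1, Polynomial.eq_C_of_natDegree_eq_zero (hS g hg).1]
    exact congrArg C h
  have h1 : S.image (fun f : ℤ[X] => f.coeff 0) ⊆ Icc (-(H : ℤ)) H := by
    intro c hc
    obtain ⟨f, hf, rfl⟩ := mem_image.1 hc
    rw [mem_Icc, ← abs_le]
    exact (hS f hf).2 0
  have h2 := card_le_card h1
  rw [card_image_of_injOn hinj, Int.card_Icc] at h2
  have h3 : S.card ≤ 2 * H + 1 := by omega
  have h4 : (S.card : ℝ) ≤ 2 * H + 1 := by exact_mod_cast h3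
  linarith

/-- **the polynomials of degree at most `d` with a square value at `x`** -/
theorem count_all (d : ℕ) (hd : 1 ≤ d) : ∃ C : ℝ, 0 < C ∧ ∀ H : ℕ, 1 ≤ H → ∀ x : ℤ,
    4 * (H : ℝ) ≤ |(x : ℝ)| → ∀ S : Finset ℤ[X],
    (∀ f ∈ S, f.natDegree ≤ d ∧ (∀ k, |f.coeff k| ≤ (H : ℤ)) ∧ ∃ y : ℤ, y ^ 2 = f.eval x) →
    (S.card : ℝ) ≤ C * (H : ℝ) ^ (((d : ℝ) + 1) / 2) := by
  classical
  induction d, hd using Nat.le_induction with
  | base =>
    obtain ⟨C, hC, h⟩ := count_deg 1 le_rfl
    refine ⟨C + 3, by positivity, fun H hH x hx S hS => ?_⟩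
    have h1 := h H hH x hx (S.filter fun f => f.natDegree = 1) fun f hf =>
      ⟨(mem_filter.1 hf).2, (hS f (mem_filter.1 hf).1).2⟩
    have h2 := count_const hH (S.filter fun f => ¬ f.natDegree = 1) fun f hf =>
      ⟨by
        have := (hS f (mem_filter.1 hf).1).1
        have := (mem_filter.1 hf).2
        omega, (hS f (mem_filter.1 hf).1).2.1⟩
    have h3 := card_filter_add_card_filter_not (s := S) (fun f : ℤ[X] => f.natDegree = 1)
    have h4 : (S.card : ℝ) = ((S.filter fun f => f.natDegree = 1).card : ℝ) +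
        ((S.filter fun f => ¬ f.natDegree = 1).card : ℝ) := by
      rw [← h3]
      push_cast
      ring
    have h5 : (H : ℝ) ^ ((((1 : ℕ) : ℝ) + 1) / 2) = H := by
      have : (((1 : ℕ) : ℝ) + 1) / 2 = 1 := by norm_num
      rw [this, Real.rpow_one]
    rw [h5] at h1 ⊢
    rw [h4]
    linarith
  | succ d hd ih =>
    obtain ⟨C₀, hC₀, h0⟩ := ih
    obtain ⟨C, hC, h⟩ := count_deg (d + 1) (by omega)
    refine ⟨C + C₀, by positivity, fun H hH x hx S hS => ?_⟩
    have hHr : (1 : ℝ) ≤ H := by exact_mod_cast hH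
    have h1 := h H hH x hx (S.filter fun f => f.natDegree = d + 1) fun f hf =>
      ⟨(mem_filter.1 hf).2, (hS f (mem_filter.1 hf).1).2⟩
    have h2 := h0 H hH x hx (S.filter fun f => ¬ f.natDegree = d + 1) fun f hf =>
      ⟨by
        have := (hS f (mem_filter.1 hf).1).1
        have := (mem_filter.1 hf).2
        omega, (hS f (mem_filter.1 hf).1).2⟩
    have h3 := card_filter_add_card_filter_not (s := S) (fun f : ℤ[X] => f.natDegree = d + 1)
    have h4 : (S.card : ℝ) = ((S.filter fun f => f.natDegree = d + 1).card : ℝ) +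
        ((S.filter fun f => ¬ f.natDegree = d + 1).card : ℝ) := by
      rw [← h3]
      push_cast
      ring
    have h5 : (H : ℝ) ^ (((d : ℝ) + 1) / 2) ≤ (H : ℝ) ^ ((((d + 1 : ℕ) : ℝ) + 1) / 2) := by
      refine Real.rpow_le_rpow_of_exponent_le hHr ?_
      push_cast
      linarith
    rw [h4]
    nlinarith

/-- the number of all polynomials -/
theorem card_polys (d H : ℕ) (S : Set ℤ[X]) (hS : S = {f | f.natDegree ≤ d ∧ ∀ k, |f.coeff k| ≤ (H : ℤ)})
    (hfin : S.Finite) : (2 * H + 1) ^ (d + 1) ≤ S.ncard := by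
  classical
  obtain ⟨φ, hφ⟩ : ∃ φ : (Fin (d + 1) → ℤ) → ℤ[X], φ = fun c => ∑ j : Fin (d + 1), C (c j) * X ^ (j : ℕ) :=
    ⟨_, rfl⟩
  have hcoef : ∀ (c : Fin (d + 1) → ℤ) (k : ℕ), (φ c).coeff k = if h : k < d + 1 then c ⟨k, h⟩ else 0 := by
    intro c k
    rw [hφ]
    simp only [finset_sum_coeff, coeff_C_mul_X_pow]
    by_cases h : k < d + 1
    · rw [dif_pos h, Finset.sum_eq_single ⟨k, h⟩]
      · simp
      · intro j _ hj
        rw [if_neg]
        rintro rfl
        exact hj rfl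
      · intro h1
        exact absurd (mem_univ _) h1
    · rw [dif_neg h]
      refine sum_eq_zero fun j _ => ?_
      rw [if_neg]
      have := j.2
      omega
  have hinj : Function.Injective φ := by
    intro c c' h
    funext j
    have h1 := congrArg (fun p : ℤ[X] => p.coeff (j : ℕ)) h
    simp only [hcoef] at h1
    rw [dif_pos j.2, dif_pos j.2] at h1
    exact h1
  have hsub : (((Fintype.piFinset fun _ : Fin (d + 1) => Icc (-(H : ℤ)) H).image φ : Finset ℤ[X]) : Set ℤ[X]) ⊆
      S := by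
    intro f hf
    obtain ⟨c, hc, rfl⟩ := mem_image.1 (mem_coe.1 hf)
    rw [Fintype.mem_piFinset] at hc
    rw [hS]
    refine ⟨?_, fun k => ?_⟩
    · rw [natDegree_le_iff_coeff_eq_zero]
      intro k hk
      rw [hcoef, dif_neg (by omega)]
    · rw [hcoef]
      by_cases h : k < d + 1
      · rw [dif_pos h]
        exact abs_le.2 (mem_Icc.1 (hc _))
      · rw [dif_neg h, abs_zero]
        exact Int.natCast_nonneg H
  have h1 := Set.ncard_le_ncard hsub hfin
  rw [Set.ncard_coe_finset, card_image_of_injective _ hinj, Fintype.card_piFinset] at h1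
  simp only [Int.card_Icc, prod_const, card_univ, Fintype.card_fin] at h1
  have h2 : (((H : ℤ) + 1 - -(H : ℤ)).toNat : ℕ) = 2 * H + 1 := by omega
  rw [h2] at h1
  exact h1

end Pool.Agent.U62.HY
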