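import Mathlib
import Pool.Agent.U580.TT.BinLaw
import Pool.Agent.U62.HY.Tot
import Pool.Agent.U62.HY.Mod2

set_option autoImplicit false

/-!
# The rational points of random hyperelliptic curves, of all heights
-/

namespace Pool.Agent.U62.HY

open Polynomial Finset Pool.Agent.U580.TT

/-- the height of a rational number -/
def hgt (x : ℚ) : ℕ := max x.num.natAbs x.den

theorem hgt_pos (x : ℚ) : 1 ≤ hgt x := (Nat.one_le_iff_ne_zero.2 x.den_nz).trans (le_max_right _ _)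

/-- the point of the projective line -/
def pt (x : ℚ) : Fin 2 → ℤ := ![(x.den : ℤ), x.num]

theorem pt_inj : Function.Injective pt := by
  intro x y h
  have h0 := congrFun h 0
  have h1 := congrFun h 1
  have h0' : (x.den : ℤ) = y.den := h0
  have h1' : x.num = y.num := h1
  exact Rat.ext h1' (by exact_mod_cast h0')

theorem coprime_pt (x : ℚ) : IsCoprime x.num (x.den : ℤ) := by
  rw [Int.isCoprime_iff_nat_coprime, Int.natAbs_natCast]
  exact x.reduced

theorem prm_pt (x : ℚ) : Pool.Agent.U580.RG.Prm (pt x) := by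
  intro p hp
  by_contra h
  push Not at h
  have h0 : (p : ℤ) ∣ (x.den : ℤ) := h 0
  have h1 : (p : ℤ) ∣ x.num := h 1
  have h2 := (coprime_pt x).isUnit_of_dvd' h1 h0
  have h3 := Int.isUnit_iff_natAbs_eq.1 h2
  rw [Int.natAbs_natCast] at h3
  exact hp.one_lt.ne' h3

theorem ht_pt (x : ℚ) : Pool.Agent.U580.VP.ht (pt x) = hgt x := by
  unfold Pool.Agent.U580.VP.ht pt hgt
  rw [Fin.univ_succ, Finset.sup_cons]
  simp [max_comm]

theorem indep_pt {x y : ℚ} (h : x ≠ y) : Indep (pt x) (pt y) := by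
  refine ⟨0, 1, ?_⟩
  show (x.den : ℤ) * y.num ≠ x.num * (y.den : ℤ)
  intro h1
  apply h
  rw [← Rat.num_div_den x, ← Rat.num_div_den y, div_eq_div_iff (by exact_mod_cast x.den_nz)
    (by exact_mod_cast y.den_nz)]
  have h2 : ((x.num * (y.den : ℤ) : ℤ) : ℚ) = (((x.den : ℤ) * y.num : ℤ) : ℚ) := by rw [h1]
  push_cast at h2
  rw [h2]
  ring

theorem eval_pt (n : ℕ) (f : ℤ[X]) (x : ℚ) :
    MvPolynomial.eval (pt x) (hom n f) = low n (n + 1) x.num x.den f.coeff := by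
  rw [eval_hom]
  rfl

theorem eval_low {n : ℕ} {f : ℤ[X]} (hf : f.natDegree ≤ n) (x : ℚ) :
    ((low n (n + 1) x.num x.den f.coeff : ℤ) : ℚ) = (x.den : ℚ) ^ n * aeval x f := by
  have hd : (x.den : ℚ) ≠ 0 := by exact_mod_cast x.den_nz
  rw [aeval_eq_sum_range' (n := n + 1) (by omega)]
  unfold low
  push_cast
  rw [mul_sum]
  refine sum_congr rfl fun j hj => ?_
  rw [mem_range] at hj
  rw [zsmul_eq_mul]
  have h1 : (x.den : ℚ) ^ n = (x.den : ℚ) ^ (n - j) * (x.den : ℚ) ^ j := by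
    rw [← pow_add]
    congr 1
    omega
  have h2 : x ^ j * (x.den : ℚ) ^ j = (x.num : ℚ) ^ j := by
    rw [← mul_pow]
    congr 1
    exact Rat.mul_den_eq_num x
  rw [h1, ← h2]
  ring

theorem isInt_of_sq {r : ℚ} {k : ℤ} (h : r ^ 2 = k) : ∃ m : ℤ, r = m := by
  have h1 : (r ^ 2).den = 1 := by rw [h]; exact Rat.den_intCast k
  rw [Rat.den_pow] at h1
  have h2 : r.den = 1 := by
    rcases (Nat.pow_eq_one).1 h1 with h | h
    · exact h
    · exact absurd h (by norm_num)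
  exact ⟨r.num, (Rat.den_eq_one_iff r).1 h2 |>.symm⟩

/-- the rational points of abscissa `x` -/
theorem point_iff {e : ℕ} {f : ℤ[X]} (hf : f.natDegree ≤ 2 * e) (x : ℚ) :
    (∃ y : ℚ, y ^ 2 = aeval x f) ↔ ∃ y : ℤ, y ^ 2 = low (2 * e) (2 * e + 1) x.num x.den f.coeff := by
  have hd : (x.den : ℚ) ≠ 0 := by exact_mod_cast x.den_nz
  have h0 := eval_low hf x
  constructor
  · rintro ⟨y, hy⟩
    rw [← hy] at h0
    have h1 : ((x.den : ℚ) ^ e * y) ^ 2 = ((low (2 * e) (2 * e + 1) x.num x.den f.coeff : ℤ) : ℚ) := by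
      rw [h0, mul_pow, ← pow_mul, mul_comm e 2]
    obtain ⟨m, hm⟩ := isInt_of_sq h1
    refine ⟨m, ?_⟩
    rw [hm] at h1
    exact_mod_cast h1
  · rintro ⟨m, hm⟩
    refine ⟨(m : ℚ) / (x.den : ℚ) ^ e, ?_⟩
    rw [← hm] at h0
    push_cast at h0
    rw [div_pow, div_eq_iff (by positivity), h0, ← pow_mul, mul_comm e 2]
    ring

/-- the polynomials with a rational point whose abscissa is in `A` -/
def WQ (n H : ℕ) (A : Set ℚ) : Set ℤ[X] := {f | f ∈ Pl n H ∧ ∃ x ∈ A, ∃ y : ℚ, y ^ 2 = aeval x f}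

theorem small_rat (e : ℕ) (he : 1 ≤ e) : ∃ C : ℝ, 0 < C ∧ ∀ H : ℕ, 1 ≤ H → ∀ A : Finset ℚ,
    (∀ x ∈ A, hgt x ≤ 4 * H) →
    ((WQ (2 * e) H A).ncard : ℝ) ≤ C * ((H : ℝ) ^ (-(1 / 2) : ℝ) * ∑ x ∈ A, (hgt x : ℝ) ^ (-(e : ℝ))) *
      ((Pl (2 * e) H).ncard : ℝ) := by
  classical
  obtain ⟨c, C, P, hc, hC, h⟩ := poly_law (2 * e) (by omega) (semi_pow (m := 2) le_rfl)
  refine ⟨C * 4 ^ (2 * e), by positivity, fun H hH A hA => ?_⟩
  have hHr : (1 : ℝ) ≤ H := by exact_mod_cast hH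
  obtain ⟨h1, -⟩ := h H (4 * H) hH (by omega) (A.image pt) (by
    intro z hz
    obtain ⟨x, hx, rfl⟩ := Finset.mem_image.1 hz
    refine ⟨prm_pt x, ?_⟩
    rw [ht_pt]
    exact hA x hx) (by
    intro z hz z' hz' hne
    obtain ⟨x, -, rfl⟩ := Finset.mem_image.1 hz
    obtain ⟨x', -, rfl⟩ := Finset.mem_image.1 hz'
    exact indep_pt fun h => hne (congrArg pt h))
  have h2 : WQ (2 * e) H (A : Set ℚ) =
      PA (2 * e) (Pow 2) H ((A.image pt : Finset (Fin 2 → ℤ)) : Set _) := by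
    ext f
    constructor
    · rintro ⟨hf, x, hx, hy⟩
      obtain ⟨y, hy⟩ := (point_iff hf.1 x).1 hy
      refine ⟨hf, pt x, Finset.mem_coe.2 (Finset.mem_image_of_mem pt hx), y, ?_⟩
      rw [eval_pt, hy]
    · rintro ⟨hf, z, hz, y, hy⟩
      obtain ⟨x, hx, rfl⟩ := Finset.mem_image.1 (Finset.mem_coe.1 hz)
      rw [eval_pt] at hy
      exact ⟨hf, x, hx, (point_iff hf.1 x).2 ⟨y, hy.symm⟩⟩
  rw [h2]
  refine h1.trans ?_
  have h3 : Pool.Agent.U580.VP.mm H (4 * H) = 4 := by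
    unfold Pool.Agent.U580.VP.mm
    push_cast
    rw [mul_div_assoc, div_self (by positivity), mul_one]
    norm_num
  rw [h3, Finset.sum_image fun x _ y _ h => pt_inj h]
  refine mul_le_mul_of_nonneg_right (mul_le_mul_of_nonneg_left (le_of_eq ?_) (by positivity))
    (Nat.cast_nonneg _)
  have h4 : (-(1 - 1 / ((2 : ℕ) : ℝ)) : ℝ) = -(1 / 2) := by norm_num
  have h5 : (-(((2 * e : ℕ) : ℝ) * (1 - 1 / ((2 : ℕ) : ℝ))) : ℝ) = -(e : ℝ) := by
    push_cast
    ring
  rw [h4, h5]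
  congr 1
  exact Finset.sum_congr rfl fun x _ => by rw [ht_pt]

/-- the polynomials with a given coefficient zero -/
theorem bad_card (n H : ℕ) (j : ℕ) (hj : j = 0 ∨ j = n) (S : Finset ℤ[X])
    (hS : ∀ f ∈ S, f ∈ Pl n H ∧ f.coeff j = 0) : S.card ≤ (2 * H + 1) ^ n := by
  classical
  obtain ⟨φ, hφ⟩ : ∃ φ : Fin n → ℕ, φ = fun k : Fin n => if j = 0 then (k : ℕ) + 1 else (k : ℕ) := ⟨_, rfl⟩
  have hsurj : ∀ k ≤ n, k ≠ j → ∃ i : Fin n, φ i = k := by
    intro k hk hkj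
    by_cases h0 : j = 0
    · refine ⟨⟨k - 1, by omega⟩, ?_⟩
      rw [hφ]
      show (if j = 0 then (k - 1) + 1 else (k - 1)) = k
      rw [if_pos h0]
      omega
    · refine ⟨⟨k, by omega⟩, ?_⟩
      rw [hφ]
      show (if j = 0 then k + 1 else k) = k
      rw [if_neg h0]
  have h1 : S.card ≤ (Fintype.piFinset fun _ : Fin n => Icc (-(H : ℤ)) H).card := by
    refine card_le_card_of_injOn (fun f => fun k => f.coeff (φ k)) (fun f hf => ?_) fun f hf g hg h => ?_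
    · rw [mem_coe, Fintype.mem_piFinset]
      intro k
      rw [mem_Icc, ← abs_le]
      exact (hS f (mem_coe.1 hf)).1.2 _
    · obtain ⟨hf1, hf2⟩ := hS f (mem_coe.1 hf)
      obtain ⟨hg1, hg2⟩ := hS g (mem_coe.1 hg)
      ext k
      rcases Nat.lt_or_ge n k with hk | hk
      · rw [coeff_eq_zero_of_natDegree_lt (lt_of_le_of_lt hf1.1 hk),
          coeff_eq_zero_of_natDegree_lt (lt_of_le_of_lt hg1.1 hk)]
      · by_cases hkj : k = j
        · rw [hkj, hf2, hg2]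
        · obtain ⟨i, rfl⟩ := hsurj k hk hkj
          exact congrFun h i
  refine h1.trans (le_of_eq ?_)
  rw [Fintype.card_piFinset]
  simp only [Int.card_Icc, prod_const, card_univ, Fintype.card_fin]
  congr 1
  omega

/-- one abscissa of large height -/
theorem one_rat (e : ℕ) (he : 1 ≤ e) : ∃ C : ℝ, 0 < C ∧ ∀ H : ℕ, 1 ≤ H → ∀ x : ℚ, 4 * H ≤ hgt x →
    ∀ S : Finset ℤ[X], (∀ f ∈ S, f ∈ Pl (2 * e) H ∧ f.coeff 0 ≠ 0 ∧ f.coeff (2 * e) ≠ 0 ∧
      ∃ y : ℚ, y ^ 2 = aeval x f) →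
    (S.card : ℝ) ≤ C * ((H : ℝ) ^ e * √(H : ℝ)) * ((hgt x).divisors.card : ℝ) := by
  classical
  obtain ⟨C, hC, h⟩ := count_forms e he
  refine ⟨C, hC, fun H hH x hx S hS => ?_⟩
  have hpoly : ∀ f ∈ S, ∀ g ∈ S, (∀ j < 2 * e + 1, f.coeff j = g.coeff j) → f = g := by
    intro f hf g hg hfg
    ext k
    rcases Nat.lt_or_ge (2 * e) k with hk | hk
    · rw [coeff_eq_zero_of_natDegree_lt (lt_of_le_of_lt (hS f hf).1.1 hk),
        coeff_eq_zero_of_natDegree_lt (lt_of_le_of_lt (hS g hg).1.1 hk)]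
    · exact hfg k (by omega)
  rcases le_total x.den x.num.natAbs with hle | hle
  · have hh : hgt x = x.num.natAbs := max_eq_left hle
    rw [hh] at hx ⊢
    refine h H hH x.num x.den (coprime_pt x) ?_ ?_ ℤ[X] S (fun f => f.coeff) (fun f hf => ?_) hpoly
    · rw [← Int.natCast_natAbs]
      omega
    · rw [← Int.natCast_natAbs x.num, Nat.abs_cast]
      exact_mod_cast hle
    · obtain ⟨h1, h2, -, h4⟩ := hS f hf
      exact ⟨h1.2, h2, (point_iff h1.1 x).1 h4⟩
  · have hh : hgt x = x.den := max_eq_right hle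
    rw [hh] at hx ⊢
    have hrev : ∀ f : ℤ[X], low (2 * e) (2 * e + 1) (x.den : ℤ) x.num (fun j => f.coeff (2 * e - j)) =
        low (2 * e) (2 * e + 1) x.num x.den f.coeff := by
      intro f
      unfold low
      rw [← Finset.sum_range_reflect (fun j => f.coeff j * ((x.den : ℤ) ^ (2 * e - j) * x.num ^ j))]
      refine sum_congr rfl fun j hj => ?_
      rw [mem_range] at hj
      have e1 : 2 * e + 1 - 1 - j = 2 * e - j := by omega
      have e2 : 2 * e - (2 * e - j) = j := by omega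
      rw [e1, e2]
      ring
    have h5 := h H hH (x.den : ℤ) x.num (coprime_pt x).symm (by rw [Nat.abs_cast]; omega)
      (by
        rw [Nat.abs_cast, ← Int.natCast_natAbs]
        exact_mod_cast hle) ℤ[X] S (fun f => fun j => f.coeff (2 * e - j)) (fun f hf => ?_)
      (fun f hf g hg hfg => hpoly f hf g hg fun j hj => ?_)
    · rw [Int.natAbs_natCast] at h5
      exact h5
    · obtain ⟨h1, -, h3, h4⟩ := hS f hf
      refine ⟨fun j => h1.2 _, by simpa using h3, ?_⟩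
      rw [hrev]
      exact (point_iff h1.1 x).1 h4
    · have h6 := hfg (2 * e - j) (by omega)
      have e2 : 2 * e - (2 * e - j) = j := by omega
      simp only [e2] at h6
      exact h6

end Pool.Agent.U62.HY
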