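import Mathlib
import Pool.Agent.U62.HY.Rat

set_option autoImplicit false

/-!
# The rational points of random hyperelliptic curves, of all heights: the sums
-/

namespace Pool.Agent.U62.HY

open Polynomial Finset Pool.Agent.U580.TT

/-- **all heights** -/
theorem all_rat (e : ℕ) (he : 1 ≤ e) : ∃ C : ℝ, 0 < C ∧ ∀ H : ℕ, 1 ≤ H → ∀ A : Finset ℚ,
    ((WQ (2 * e) H A).ncard : ℝ) ≤ C * ((H : ℝ) ^ (-1 : ℝ) +
      (H : ℝ) ^ (-(1 / 2) : ℝ) * (∑ x ∈ A.filter (fun x => hgt x ≤ 4 * H), (hgt x : ℝ) ^ (-(e : ℝ))) +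
      (H : ℝ) ^ (-((e : ℝ) + 1 / 2)) * (∑ x ∈ A.filter (fun x => ¬ hgt x ≤ 4 * H),
        ((hgt x).divisors.card : ℝ))) * ((Pl (2 * e) H).ncard : ℝ) := by
  classical
  obtain ⟨C₁, hC₁, h1⟩ := small_rat e he
  obtain ⟨C₂, hC₂, h2⟩ := one_rat e he
  refine ⟨C₁ + C₂ + 2, by positivity, fun H hH A => ?_⟩
  have hHr : (1 : ℝ) ≤ H := by exact_mod_cast hH
  obtain ⟨hfin, -, -⟩ := pl_card (2 * e) H
  have hcard := card_polys (2 * e) H (Pl (2 * e) H) rfl hfin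
  obtain ⟨P, hP⟩ : ∃ P : Finset ℤ[X], (P : Set ℤ[X]) = Pl (2 * e) H := ⟨hfin.toFinset, hfin.coe_toFinset⟩
  have hmem : ∀ f, f ∈ P ↔ f ∈ Pl (2 * e) H := fun f => by rw [← hP, mem_coe]
  obtain ⟨N, hN⟩ : ∃ N : ℝ, N = ((Pl (2 * e) H).ncard : ℝ) := ⟨_, rfl⟩
  have hNge : (2 * (H : ℝ) + 1) ^ (2 * e + 1) ≤ N := by
    rw [hN]
    exact_mod_cast hcard
  obtain ⟨A₁, hA₁⟩ : ∃ A₁ : Finset ℚ, A₁ = A.filter (fun x => hgt x ≤ 4 * H) := ⟨_, rfl⟩
  obtain ⟨A₂, hA₂⟩ : ∃ A₂ : Finset ℚ, A₂ = A.filter (fun x => ¬ hgt x ≤ 4 * H) := ⟨_, rfl⟩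
  rw [← hA₁, ← hA₂, ← hN]
  have h3 := h1 H hH A₁ fun x hx => by
    rw [hA₁] at hx
    exact (mem_filter.1 hx).2
  rw [← hN] at h3
  -- the large part
  obtain ⟨G, hG⟩ : ∃ G : Finset ℤ[X], G = A₂.biUnion fun x => P.filter fun f => f.coeff 0 ≠ 0 ∧
    f.coeff (2 * e) ≠ 0 ∧ ∃ y : ℚ, y ^ 2 = aeval x f := ⟨_, rfl⟩
  obtain ⟨B₀, hB₀⟩ : ∃ B₀ : Finset ℤ[X], B₀ = P.filter fun f => f.coeff 0 = 0 := ⟨_, rfl⟩
  obtain ⟨B₁, hB₁⟩ : ∃ B₁ : Finset ℤ[X], B₁ = P.filter fun f => f.coeff (2 * e) = 0 := ⟨_, rfl⟩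
  have hsub : WQ (2 * e) H (A : Set ℚ) ⊆ (WQ (2 * e) H (A₁ : Set ℚ)) ∪ ((G ∪ B₀ ∪ B₁ : Finset ℤ[X]) : Set ℤ[X]) := by
    rintro f ⟨hf, x, hx, hy⟩
    have hfP := (hmem f).2 hf
    by_cases hxx : hgt x ≤ 4 * H
    · refine Or.inl ⟨hf, x, ?_, hy⟩
      rw [hA₁]
      exact mem_coe.2 (mem_filter.2 ⟨mem_coe.1 hx, hxx⟩)
    · refine Or.inr ?_
      rw [mem_coe, mem_union, mem_union]
      by_cases h0 : f.coeff 0 = 0
      · exact Or.inl (Or.inr (by rw [hB₀]; exact mem_filter.2 ⟨hfP, h0⟩))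
      by_cases h1 : f.coeff (2 * e) = 0
      · exact Or.inr (by rw [hB₁]; exact mem_filter.2 ⟨hfP, h1⟩)
      refine Or.inl (Or.inl ?_)
      rw [hG, mem_biUnion]
      refine ⟨x, ?_, mem_filter.2 ⟨hfP, h0, h1, hy⟩⟩
      rw [hA₂]
      exact mem_filter.2 ⟨mem_coe.1 hx, hxx⟩
  have hfin' : (WQ (2 * e) H (A₁ : Set ℚ)).Finite := hfin.subset fun f hf => hf.1
  have h4 := (Set.ncard_le_ncard hsub (hfin'.union (Finset.finite_toSet _))).trans (Set.ncard_union_le _ _)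
  rw [Set.ncard_coe_finset] at h4
  have h5 : (G ∪ B₀ ∪ B₁).card ≤ G.card + B₀.card + B₁.card :=
    (card_union_le _ _).trans (Nat.add_le_add_right (card_union_le _ _) _)
  have h6 : ((WQ (2 * e) H (A : Set ℚ)).ncard : ℝ) ≤ ((WQ (2 * e) H (A₁ : Set ℚ)).ncard : ℝ) +
      ((G.card : ℝ) + (B₀.card : ℝ) + (B₁.card : ℝ)) := by
    have := h4.trans (Nat.add_le_add_left h5 _)
    exact_mod_cast this
  have hb : ∀ j, j = 0 ∨ j = 2 * e → (((P.filter fun f => f.coeff j = 0).card : ℕ) : ℝ) ≤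
      (H : ℝ) ^ (-1 : ℝ) * N := by
    intro j hj
    have h7 := bad_card (2 * e) H j hj (P.filter fun f => f.coeff j = 0) fun f hf =>
      ⟨(hmem f).1 (mem_filter.1 hf).1, (mem_filter.1 hf).2⟩
    have h8 : (((P.filter fun f => f.coeff j = 0).card : ℕ) : ℝ) ≤ (2 * (H : ℝ) + 1) ^ (2 * e) := by
      exact_mod_cast h7
    refine h8.trans ?_
    rw [Real.rpow_neg_one, ← div_eq_inv_mul, le_div_iff₀ (by linarith)]
    refine le_trans ?_ hNge
    rw [pow_succ]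
    refine mul_le_mul_of_nonneg_left (by linarith) (by positivity)
  have hb0 := hb 0 (Or.inl rfl)
  have hb1 := hb (2 * e) (Or.inr rfl)
  rw [← hB₀] at hb0
  rw [← hB₁] at hb1
  have hG' : (G.card : ℝ) ≤ C₂ * ((H : ℝ) ^ (-((e : ℝ) + 1 / 2)) *
      (∑ x ∈ A₂, ((hgt x).divisors.card : ℝ))) * N := by
    have h7 : (G.card : ℝ) ≤ ∑ x ∈ A₂, ((P.filter fun f => f.coeff 0 ≠ 0 ∧
        f.coeff (2 * e) ≠ 0 ∧ ∃ y : ℚ, y ^ 2 = aeval x f).card : ℝ) := by
      rw [hG]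
      exact_mod_cast card_biUnion_le
    refine h7.trans ?_
    rw [mul_sum, mul_sum, sum_mul]
    refine sum_le_sum fun x hx => ?_
    have hx' : 4 * H ≤ hgt x := by
      rw [hA₂] at hx
      exact (not_le.1 (mem_filter.1 hx).2).le
    refine (h2 H hH x hx' _ fun f hf => ?_).trans ?_
    · obtain ⟨h8, h9⟩ := mem_filter.1 hf
      exact ⟨(hmem f).1 h8, h9⟩
    · have h8 : (H : ℝ) ^ e * √(H : ℝ) = (H : ℝ) ^ (-((e : ℝ) + 1 / 2)) * (H : ℝ) ^ (2 * e + 1) := by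
        rw [Real.sqrt_eq_rpow, ← Real.rpow_natCast, ← Real.rpow_natCast, ← Real.rpow_add (by linarith),
          ← Real.rpow_add (by linarith)]
        congr 1
        push_cast
        ring
      have h9 : (H : ℝ) ^ (2 * e + 1) ≤ N := by
        refine le_trans ?_ hNge
        exact pow_le_pow_left₀ (by positivity) (by linarith) _
      rw [h8]
      have h10 : (0 : ℝ) ≤ C₂ * (H : ℝ) ^ (-((e : ℝ) + 1 / 2)) * ((hgt x).divisors.card : ℝ) := by positivity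
      have h11 := mul_le_mul_of_nonneg_left h9 h10
      calc C₂ * ((H : ℝ) ^ (-((e : ℝ) + 1 / 2)) * (H : ℝ) ^ (2 * e + 1)) * ((hgt x).divisors.card : ℝ)
          = C₂ * (H : ℝ) ^ (-((e : ℝ) + 1 / 2)) * ((hgt x).divisors.card : ℝ) * (H : ℝ) ^ (2 * e + 1) := by ring
        _ ≤ _ := h11
        _ = _ := by ring
  have hN0 : 0 ≤ N := by
    rw [hN]
    exact Nat.cast_nonneg _
  obtain ⟨u, hu⟩ : ∃ u : ℝ, u = (H : ℝ) ^ (-1 : ℝ) := ⟨_, rfl⟩
  obtain ⟨v, hv⟩ : ∃ v : ℝ, v = (H : ℝ) ^ (-(1 / 2) : ℝ) * ∑ x ∈ A₁, (hgt x : ℝ) ^ (-(e : ℝ)) := ⟨_, rfl⟩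
  obtain ⟨w, hw⟩ : ∃ w : ℝ, w = (H : ℝ) ^ (-((e : ℝ) + 1 / 2)) * ∑ x ∈ A₂, ((hgt x).divisors.card : ℝ) :=
    ⟨_, rfl⟩
  have hu0 : 0 ≤ u := by rw [hu]; positivity
  have hv0 : 0 ≤ v := by
    rw [hv]
    exact mul_nonneg (by positivity) (sum_nonneg fun x _ => by positivity)
  have hw0 : 0 ≤ w := by
    rw [hw]
    exact mul_nonneg (by positivity) (sum_nonneg fun x _ => by positivity)
  rw [← hv] at h3
  rw [← hw] at hG'
  rw [← hu] at hb0 hb1
  rw [← hu, ← hv, ← hw]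
  have e1 : 0 ≤ u * N := by positivity
  have e2 : 0 ≤ v * N := by positivity
  have e3 : 0 ≤ w * N := by positivity
  calc ((WQ (2 * e) H (A : Set ℚ)).ncard : ℝ)
      ≤ C₁ * v * N + (C₂ * w * N + u * N + u * N) := by linarith
    _ = C₁ * (v * N) + C₂ * (w * N) + 2 * (u * N) := by ring
    _ ≤ (C₁ + C₂ + 2) * (v * N) + (C₁ + C₂ + 2) * (w * N) + (C₁ + C₂ + 2) * (u * N) := by
        refine add_le_add (add_le_add ?_ ?_) ?_
        · exact mul_le_mul_of_nonneg_right (by linarith) e2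
        · exact mul_le_mul_of_nonneg_right (by linarith) e3
        · exact mul_le_mul_of_nonneg_right (by linarith) e1
    _ = (C₁ + C₂ + 2) * (u + v + w) * N := by ring

/-- the number of the divisors on average -/
theorem tau_sum (B : ℕ) : ∑ q ∈ Icc 1 B, (q.divisors.card : ℝ) ≤ B * (1 + Real.log B) := by
  classical
  have h1 : ∀ q ∈ Icc 1 B, q.divisors.card = ((Icc 1 B).filter fun d => d ∣ q).card := by
    intro q hq
    rw [mem_Icc] at hq
    congr 1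
    ext d
    rw [Nat.mem_divisors, mem_filter, mem_Icc]
    constructor
    · rintro ⟨h1, h2⟩
      exact ⟨⟨Nat.pos_of_dvd_of_pos h1 (by omega), (Nat.le_of_dvd (by omega) h1).trans hq.2⟩, h1⟩
    · rintro ⟨-, h1⟩
      exact ⟨h1, by omega⟩
  have h2 : ∑ q ∈ Icc 1 B, (q.divisors.card : ℝ) = ∑ d ∈ Icc 1 B, ((B / d : ℕ) : ℝ) := by
    have h3 : ∑ q ∈ Icc 1 B, q.divisors.card = ∑ d ∈ Icc 1 B, B / d := by
      rw [sum_congr rfl h1]
      simp only [card_filter]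
      rw [sum_comm]
      refine sum_congr rfl fun d _ => ?_
      rw [← card_filter]
      exact Nat.Ioc_filter_dvd_card_eq_div B d
    exact_mod_cast h3
  rw [h2]
  have h3 : ∑ d ∈ Icc 1 B, ((B / d : ℕ) : ℝ) ≤ ∑ d ∈ Icc 1 B, (B : ℝ) * ((d : ℝ)⁻¹) := by
    refine sum_le_sum fun d _ => ?_
    rw [← div_eq_mul_inv]
    exact Nat.cast_div_le
  refine h3.trans ?_
  rw [← mul_sum]
  refine mul_le_mul_of_nonneg_left ?_ (Nat.cast_nonneg B)
  have h4 := harmonic_le_one_add_log B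
  rw [harmonic_eq_sum_Icc] at h4
  push_cast at h4
  exact h4

/-- the rational numbers of height at most `B` -/
noncomputable def QB (B : ℕ) : Finset ℚ :=
  ((Icc (-(B : ℤ)) B) ×ˢ (Icc 1 B)).image fun p => (p.1 : ℚ) / (p.2 : ℚ)

theorem mem_QB {B : ℕ} {x : ℚ} (hx : hgt x ≤ B) : x ∈ QB B := by
  unfold QB
  have h1 : x.num.natAbs ≤ B := (le_max_left _ _).trans hx
  have h2 : x.den ≤ B := (le_max_right _ _).trans hx
  refine mem_image.2 ⟨(x.num, x.den), ?_, ?_⟩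
  · rw [mem_product, mem_Icc, mem_Icc]
    have := x.den_nz
    refine ⟨⟨?_, ?_⟩, ?_, ?_⟩ <;> simp only <;> omega
  · exact Rat.num_div_den x

/-- the number of rational numbers of height `h` -/
theorem card_hgt (S : Finset ℚ) (h : ℕ) (hh : 1 ≤ h) (hS : ∀ x ∈ S, hgt x = h) : S.card ≤ 5 * h := by
  classical
  have h1 : S.card ≤ (((({(h : ℤ), -(h : ℤ)} : Finset ℤ) ×ˢ (Icc 1 h : Finset ℕ)) ∪
      ((Icc (-(h : ℤ)) h) ×ˢ ({h} : Finset ℕ)) : Finset (ℤ × ℕ))).card := by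
    refine card_le_card_of_injOn (fun x => (x.num, x.den)) (fun x hx => ?_) fun x _ y _ hxy => ?_
    · have h1 := hS x (mem_coe.1 hx)
      have h2 : x.num.natAbs ≤ h := (le_max_left _ _).trans h1.le
      have h3 : x.den ≤ h := (le_max_right _ _).trans h1.le
      have h4 := x.den_nz
      rw [mem_coe, mem_union, mem_product, mem_product, mem_Icc, mem_Icc, mem_insert, mem_singleton,
        mem_singleton]
      rcases le_total x.den x.num.natAbs with hle | hle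
      · have h5 : x.num.natAbs = h := by
          have := max_eq_left hle
          unfold hgt at h1
          omega
        refine Or.inl ⟨?_, ?_⟩
        · show x.num = h ∨ x.num = -h
          omega
        · show 1 ≤ x.den ∧ x.den ≤ h
          omega
      · have h5 : x.den = h := by
          have := max_eq_right hle
          unfold hgt at h1
          omega
        refine Or.inr ⟨?_, h5⟩
        show -(h : ℤ) ≤ x.num ∧ x.num ≤ h
        omega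
    · obtain ⟨h1, h2⟩ := Prod.mk.inj hxy
      exact Rat.ext h1 h2
  refine h1.trans ((card_union_le _ _).trans ?_)
  rw [card_product, card_product, card_singleton, Nat.card_Icc, Int.card_Icc]
  have h2 := card_le_two (a := (h : ℤ)) (b := -(h : ℤ))
  have h3 : (((h : ℤ) + 1 - -(h : ℤ)).toNat : ℕ) = 2 * h + 1 := by omega
  rw [h3, Nat.add_sub_cancel, mul_one]
  nlinarith

/-- a sum over rational numbers by the height -/
theorem sum_by_hgt (S : Finset ℚ) (T B : ℕ) (hT : 1 ≤ T) (hS : ∀ x ∈ S, T ≤ hgt x ∧ hgt x ≤ B) (g : ℕ → ℝ)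
    (hg : ∀ n, 0 ≤ g n) : ∑ x ∈ S, g (hgt x) ≤ 5 * ∑ h ∈ Icc T B, (h : ℝ) * g h := by
  classical
  have h1 : ∑ x ∈ S, g (hgt x) = ∑ h ∈ Icc T B, ∑ x ∈ S.filter (fun x => hgt x = h), g (hgt x) := by
    rw [sum_fiberwise_of_maps_to]
    intro x hx
    exact mem_Icc.2 (hS x hx)
  rw [h1, mul_sum]
  refine sum_le_sum fun h hh => ?_
  rw [mem_Icc] at hh
  have h2 : ∑ x ∈ S.filter (fun x => hgt x = h), g (hgt x) =
      ((S.filter fun x => hgt x = h).card : ℝ) * g h := by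
    rw [sum_congr rfl fun x hx => by rw [(mem_filter.1 hx).2], sum_const, nsmul_eq_mul]
  rw [h2]
  have h3 := card_hgt (S.filter fun x => hgt x = h) h (by omega) fun x hx => (mem_filter.1 hx).2
  have h4 : (((S.filter fun x => hgt x = h).card : ℕ) : ℝ) ≤ 5 * h := by exact_mod_cast h3
  calc ((S.filter fun x => hgt x = h).card : ℝ) * g h ≤ 5 * h * g h :=
        mul_le_mul_of_nonneg_right h4 (hg h)
    _ = 5 * (h * g h) := by ring

end Pool.Agent.U62.HY
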