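import Mathlib
import Pool.Agent.U62.HY.RatLaw

set_option autoImplicit false

/-!
# The rational points of random hyperelliptic curves: windows of heights and the points at infinity
-/

namespace Pool.Agent.U62.HY

open Polynomial Finset Pool.Agent.U580.TT

/-- the polynomials whose leading coefficient is a square -/
theorem infinity_card (n H : ℕ) (S : Finset ℤ[X]) (hS : ∀ f ∈ S, f ∈ Pl n H ∧ ∃ y : ℤ, y ^ 2 = f.coeff n) :
    S.card ≤ (Nat.sqrt H + 1) * (2 * H + 1) ^ n := by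
  classical
  have hy : ∀ f, ∃ y : ℕ, f ∈ S → (y : ℤ) ^ 2 = f.coeff n := by
    intro f
    by_cases h : f ∈ S
    · obtain ⟨-, y, hy⟩ := hS f h
      exact ⟨y.natAbs, fun _ => by rw [Int.natAbs_sq]; exact hy⟩
    · exact ⟨0, fun h' => absurd h' h⟩
  choose y hy using hy
  have h1 : S.card ≤ ((range (Nat.sqrt H + 1)) ×ˢ
      (Fintype.piFinset fun _ : Fin n => Icc (-(H : ℤ)) H)).card := by
    refine card_le_card_of_injOn (fun f => (y f, fun k : Fin n => f.coeff (k : ℕ))) (fun f hf => ?_)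
      fun f hf g hg h => ?_
    · have hf' := mem_coe.1 hf
      rw [mem_coe, mem_product, mem_range, Fintype.mem_piFinset]
      refine ⟨?_, fun k => ?_⟩
      · show y f < Nat.sqrt H + 1
        rw [Nat.lt_succ_iff, Nat.le_sqrt]
        have h1 := (abs_le.1 ((hS f hf').1.2 n)).2
        rw [← hy f hf', pow_two] at h1
        exact_mod_cast h1
      · rw [mem_Icc, ← abs_le]
        exact (hS f hf').1.2 _
    · have hf' := mem_coe.1 hf
      have hg' := mem_coe.1 hg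
      obtain ⟨h2, h3⟩ := Prod.mk.inj h
      ext k
      rcases Nat.lt_trichotomy k n with hk | hk | hk
      · exact congrFun h3 ⟨k, hk⟩
      · rw [hk, ← hy f hf', ← hy g hg', h2]
      · rw [coeff_eq_zero_of_natDegree_lt (lt_of_le_of_lt (hS f hf').1.1 hk),
          coeff_eq_zero_of_natDegree_lt (lt_of_le_of_lt (hS g hg').1.1 hk)]
  refine h1.trans (le_of_eq ?_)
  rw [card_product, card_range, Fintype.card_piFinset]
  simp only [Int.card_Icc, prod_const, card_univ, Fintype.card_fin]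
  congr 2
  omega

/-- the proportion of the curves with a rational point at infinity -/
theorem infinity_ratio (n H : ℕ) (hH : 1 ≤ H) :
    (({f | f ∈ Pl n H ∧ ∃ y : ℤ, y ^ 2 = f.coeff n} : Set ℤ[X]).ncard : ℝ) ≤
      (H : ℝ) ^ (-(1 / 2) : ℝ) * ((Pl n H).ncard : ℝ) := by
  classical
  have hHr : (1 : ℝ) ≤ H := by exact_mod_cast hH
  obtain ⟨hfin, -, -⟩ := pl_card n H
  have hcard := card_polys n H (Pl n H) rfl hfin
  have hfin2 : ({f | f ∈ Pl n H ∧ ∃ y : ℤ, y ^ 2 = f.coeff n} : Set ℤ[X]).Finite :=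
    hfin.subset fun f hf => hf.1
  have h1 := infinity_card n H hfin2.toFinset fun f hf => (hfin2.mem_toFinset).1 hf
  rw [Set.ncard_eq_toFinset_card _ hfin2]
  have h2 : ((hfin2.toFinset.card : ℕ) : ℝ) ≤ ((Nat.sqrt H : ℝ) + 1) * (2 * (H : ℝ) + 1) ^ n := by
    exact_mod_cast h1
  have h3 : (2 * (H : ℝ) + 1) ^ (n + 1) ≤ ((Pl n H).ncard : ℝ) := by exact_mod_cast hcard
  have h4 : (Nat.sqrt H : ℝ) ≤ √(H : ℝ) := Real.nat_sqrt_le_real_sqrt
  have h5 : 1 ≤ √(H : ℝ) := Real.one_le_sqrt.2 hHr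
  have h6 : (H : ℝ) ^ (-(1 / 2) : ℝ) * √(H : ℝ) = 1 := by
    rw [Real.sqrt_eq_rpow, ← Real.rpow_add (by linarith)]
    norm_num
  have h7 : √(H : ℝ) * √(H : ℝ) = H := Real.mul_self_sqrt (by linarith)
  have h8 : (0 : ℝ) ≤ (H : ℝ) ^ (-(1 / 2) : ℝ) := by positivity
  have h9 : (Nat.sqrt H : ℝ) + 1 ≤ (H : ℝ) ^ (-(1 / 2) : ℝ) * (2 * H + 1) := by
    have h10 : (H : ℝ) ^ (-(1 / 2) : ℝ) * H = √(H : ℝ) := by
      calc (H : ℝ) ^ (-(1 / 2) : ℝ) * H = ((H : ℝ) ^ (-(1 / 2) : ℝ) * √(H : ℝ)) * √(H : ℝ) := by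
            rw [mul_assoc, h7]
        _ = √(H : ℝ) := by rw [h6, one_mul]
    nlinarith
  refine h2.trans ((mul_le_mul_of_nonneg_right h9 (by positivity)).trans ?_)
  calc (H : ℝ) ^ (-(1 / 2) : ℝ) * (2 * H + 1) * (2 * (H : ℝ) + 1) ^ n
      = (H : ℝ) ^ (-(1 / 2) : ℝ) * (2 * (H : ℝ) + 1) ^ (n + 1) := by rw [pow_succ]; ring
    _ ≤ _ := mul_le_mul_of_nonneg_left h3 h8

/-- **windows of heights** -/
theorem window_rat (g : ℕ) (hg : 2 ≤ g) : ∃ C : ℝ, 0 < C ∧ ∀ H T B : ℕ, 1 ≤ H → 1 ≤ T →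
    ((WQ (2 * (g + 1)) H {x | T ≤ hgt x ∧ hgt x ≤ B}).ncard : ℝ) ≤ C * ((H : ℝ) ^ (-1 : ℝ) +
      (H : ℝ) ^ (-(1 / 2) : ℝ) * (T : ℝ) ^ (-((g : ℝ) - 1)) +
      (B : ℝ) ^ 2 * (1 + Real.log B) * (H : ℝ) ^ (-((g : ℝ) + 3 / 2))) *
      ((Pl (2 * (g + 1)) H).ncard : ℝ) := by
  classical
  obtain ⟨C, hC, h⟩ := all_rat (g + 1) (by omega)
  have hgr : (2 : ℝ) ≤ g := by exact_mod_cast hg
  obtain ⟨κ, hκ⟩ : ∃ κ : ℝ, κ = (g : ℝ) - 1 := ⟨_, rfl⟩
  have hκ0 : 0 < κ := by rw [hκ]; linarith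
  refine ⟨C * (5 * (1 + 1 / κ) + 5), by positivity, fun H T B hH hT => ?_⟩
  have hHr : (1 : ℝ) ≤ H := by exact_mod_cast hH
  obtain ⟨A, hA⟩ : ∃ A : Finset ℚ, A = (QB B).filter fun x => T ≤ hgt x ∧ hgt x ≤ B := ⟨_, rfl⟩
  have hset : {x : ℚ | T ≤ hgt x ∧ hgt x ≤ B} = (A : Set ℚ) := by
    ext x
    rw [hA, mem_coe, mem_filter]
    exact ⟨fun hx => ⟨mem_QB hx.2, hx⟩, fun hx => hx.2⟩
  have hA' : ∀ x ∈ A, T ≤ hgt x ∧ hgt x ≤ B := fun x hx => by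
    rw [hA] at hx
    exact (mem_filter.1 hx).2
  rw [hset]
  refine (h H hH A).trans (mul_le_mul_of_nonneg_right ?_ (Nat.cast_nonneg _))
  rw [mul_assoc C]
  refine mul_le_mul_of_nonneg_left ?_ hC.le
  -- small heights
  have h1 : ∑ x ∈ A.filter (fun x => hgt x ≤ 4 * H), (hgt x : ℝ) ^ (-((g + 1 : ℕ) : ℝ)) ≤
      5 * ((1 + 1 / κ) * (T : ℝ) ^ (-κ)) := by
    refine (sum_by_hgt _ T B hT (fun x hx => hA' x (mem_filter.1 hx).1)
      (fun m : ℕ => (m : ℝ) ^ (-((g + 1 : ℕ) : ℝ))) fun m => by positivity).trans ?_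
    refine mul_le_mul_of_nonneg_left ?_ (by norm_num)
    refine le_trans (le_of_eq ?_) (Pool.Agent.U580.VP.sum_rpow κ hκ0 T hT B)
    refine sum_congr rfl fun m hm => ?_
    have hm0 : (0 : ℝ) < m := by
      have := (mem_Icc.1 hm).1
      exact_mod_cast lt_of_lt_of_le hT this
    have e1 : (-1 - κ : ℝ) = 1 + -((g + 1 : ℕ) : ℝ) := by
      rw [hκ]
      push_cast
      ring
    rw [e1, Real.rpow_add hm0, Real.rpow_one]
  -- large heights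
  have h2 : ∑ x ∈ A.filter (fun x => ¬ hgt x ≤ 4 * H), ((hgt x).divisors.card : ℝ) ≤
      5 * ((B : ℝ) ^ 2 * (1 + Real.log B)) := by
    refine (sum_by_hgt _ T B hT (fun x hx => hA' x (mem_filter.1 hx).1)
      (fun m : ℕ => (m.divisors.card : ℝ)) fun m => by positivity).trans ?_
    refine mul_le_mul_of_nonneg_left ?_ (by norm_num)
    have h3 : ∑ m ∈ Icc T B, (m : ℝ) * (m.divisors.card : ℝ) ≤ ∑ m ∈ Icc 1 B, (B : ℝ) * (m.divisors.card : ℝ) := by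
      refine (sum_le_sum_of_subset_of_nonneg (Icc_subset_Icc_left hT) fun m _ _ => by positivity).trans ?_
      refine sum_le_sum fun m hm => mul_le_mul_of_nonneg_right ?_ (by positivity)
      exact_mod_cast (mem_Icc.1 hm).2
    refine h3.trans ?_
    rw [← mul_sum, pow_two, mul_assoc]
    exact mul_le_mul_of_nonneg_left (tau_sum B) (Nat.cast_nonneg B)
  have hk : 0 ≤ 1 / κ := by positivity
  have hlog : 0 ≤ Real.log B := Real.log_natCast_nonneg B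
  have e2 : (-(((g + 1 : ℕ) : ℝ) + 1 / 2) : ℝ) = -((g : ℝ) + 3 / 2) := by
    push_cast
    ring
  rw [e2, ← hκ]
  obtain ⟨a, ha⟩ : ∃ a : ℝ, a = (H : ℝ) ^ (-1 : ℝ) := ⟨_, rfl⟩
  obtain ⟨b, hb⟩ : ∃ b : ℝ, b = (H : ℝ) ^ (-(1 / 2) : ℝ) := ⟨_, rfl⟩
  obtain ⟨c, hc⟩ : ∃ c : ℝ, c = (H : ℝ) ^ (-((g : ℝ) + 3 / 2)) := ⟨_, rfl⟩
  obtain ⟨t, ht⟩ : ∃ t : ℝ, t = (T : ℝ) ^ (-κ) := ⟨_, rfl⟩
  obtain ⟨L, hL⟩ : ∃ L : ℝ, L = (B : ℝ) ^ 2 * (1 + Real.log B) := ⟨_, rfl⟩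
  rw [← ht] at h1
  rw [← hL] at h2
  rw [← ha, ← hb, ← hc, ← ht, ← hL]
  have ha0 : 0 ≤ a := by rw [ha]; positivity
  have hb0 : 0 ≤ b := by rw [hb]; positivity
  have hc0 : 0 ≤ c := by rw [hc]; positivity
  have ht0 : 0 ≤ t := by rw [ht]; positivity
  have hL0 : 0 ≤ L := by rw [hL]; positivity
  have h3 := mul_le_mul_of_nonneg_left h1 hb0
  have h4 := mul_le_mul_of_nonneg_left h2 hc0
  have e1 : 0 ≤ b * t := by positivity
  have e3 : 0 ≤ c * L := by positivity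
  have e4 : 0 ≤ 1 / κ * a := by positivity
  have e5 : 0 ≤ 1 / κ * (c * L) := by positivity
  calc a + b * (∑ x ∈ A.filter (fun x => hgt x ≤ 4 * H), (hgt x : ℝ) ^ (-((g + 1 : ℕ) : ℝ))) +
      c * (∑ x ∈ A.filter (fun x => ¬ hgt x ≤ 4 * H), ((hgt x).divisors.card : ℝ))
      ≤ a + b * (5 * ((1 + 1 / κ) * t)) + c * (5 * L) := by linarith
    _ ≤ (5 * (1 + 1 / κ) + 5) * (a + b * t + L * c) := by nlinarith

end Pool.Agent.U62.HY
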