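import Mathlib
import Pool.Agent.U580.TT.BinLaw
import Pool.Agent.U62.HY.Tot

set_option autoImplicit false

/-!
# The abscissas of the integral points of random hyperelliptic curves, of all sizes
-/

namespace Pool.Agent.U62.HY

open Polynomial Finset Pool.Agent.U580.TT

/-- the point of the projective line (as in `RandomPolynomials` by helper580) -/
def vv (x : ℤ) : Fin 2 → ℤ := ![1, x]

theorem vv_inj : Function.Injective vv := by
  intro x y h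
  have := congrFun h 1
  simpa [vv] using this

theorem prm_vv (x : ℤ) : Pool.Agent.U580.RG.Prm (vv x) := by
  intro p hp
  refine ⟨0, fun h => ?_⟩
  have h1 : (p : ℤ) ∣ 1 := h
  have h2 : p ∣ 1 := by exact_mod_cast h1
  exact hp.one_lt.ne' (Nat.dvd_one.1 h2)

theorem ht_vv (x : ℤ) : Pool.Agent.U580.VP.ht (vv x) = max 1 x.natAbs := by
  unfold Pool.Agent.U580.VP.ht vv
  rw [Fin.univ_succ, Finset.sup_cons]
  simp

theorem ht_vv_real (x : ℤ) : ((Pool.Agent.U580.VP.ht (vv x) : ℕ) : ℝ) = max 1 |(x : ℝ)| := by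
  rw [ht_vv]
  push_cast
  rw [Nat.cast_natAbs]
  push_cast
  rfl

theorem indep_vv {x y : ℤ} (h : x ≠ y) : Indep (vv x) (vv y) := by
  refine ⟨0, 1, ?_⟩
  show 1 * y ≠ x * 1
  rw [one_mul, mul_one]
  exact h.symm

theorem eval_vv {d H : ℕ} {f : ℤ[X]} (hf : f ∈ Pl d H) (x : ℤ) :
    MvPolynomial.eval (vv x) (hom d f) = f.eval x := by
  rw [eval_hom, Polynomial.eval_eq_sum_range' (n := d + 1) (by have := hf.1; omega)]
  refine Finset.sum_congr rfl fun k _ => ?_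
  show f.coeff k * (1 ^ (d - k) * x ^ k) = f.coeff k * x ^ k
  rw [one_pow, one_mul]

/-- the weight of an integer -/
noncomputable def wgt (d H : ℕ) (x : ℤ) : ℝ :=
  (H : ℝ) ^ (-(1 / 2) : ℝ) * (min (max 1 |(x : ℝ)|) (H : ℝ)) ^ (-((d : ℝ) / 2))

theorem wgt_nonneg (d H : ℕ) (x : ℤ) : 0 ≤ wgt d H x := by
  unfold wgt
  positivity

/-- the polynomials with a square value at an element of `A` -/
def WP (d H : ℕ) (A : Set ℤ) : Set ℤ[X] := {f | f ∈ Pl d H ∧ ∃ x ∈ A, ∃ y : ℤ, y ^ 2 = f.eval x}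

theorem small_part (d : ℕ) (hd : 1 ≤ d) : ∃ C : ℝ, 0 < C ∧ ∀ H : ℕ, 1 ≤ H → ∀ A : Finset ℤ,
    (∀ x ∈ A, |x| ≤ 4 * (H : ℤ)) →
    ((WP d H A).ncard : ℝ) ≤ C * (∑ x ∈ A, wgt d H x) * ((Pl d H).ncard : ℝ) := by
  classical
  obtain ⟨c, C, P, hc, hC, h⟩ := poly_law d hd (semi_pow (m := 2) le_rfl)
  refine ⟨C * 4 ^ d, by positivity, fun H hH A hA => ?_⟩
  have hHr : (1 : ℝ) ≤ H := by exact_mod_cast hH
  obtain ⟨h1, -⟩ := h H (4 * H) hH (by omega) (A.image vv) (by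
    intro z hz
    obtain ⟨x, hx, rfl⟩ := Finset.mem_image.1 hz
    refine ⟨prm_vv x, ?_⟩
    rw [ht_vv]
    refine max_le (by omega) ?_
    have := hA x hx
    rw [← Int.natCast_natAbs] at this
    omega) (by
    intro z hz z' hz' hne
    obtain ⟨x, -, rfl⟩ := Finset.mem_image.1 hz
    obtain ⟨x', -, rfl⟩ := Finset.mem_image.1 hz'
    exact indep_vv fun h => hne (congrArg vv h))
  have h2 : WP d H (A : Set ℤ) = PA d (Pow 2) H ((A.image vv : Finset (Fin 2 → ℤ)) : Set _) := by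
    ext f
    constructor
    · rintro ⟨hf, x, hx, y, hy⟩
      refine ⟨hf, vv x, Finset.mem_coe.2 (Finset.mem_image_of_mem vv hx), y, ?_⟩
      rw [eval_vv hf, hy]
    · rintro ⟨hf, z, hz, y, hy⟩
      obtain ⟨x, hx, rfl⟩ := Finset.mem_image.1 (Finset.mem_coe.1 hz)
      rw [eval_vv hf] at hy
      exact ⟨hf, x, hx, y, hy.symm⟩
  rw [h2]
  refine h1.trans ?_
  have h3 : Pool.Agent.U580.VP.mm H (4 * H) = 4 := by
    unfold Pool.Agent.U580.VP.mm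
    push_cast
    rw [mul_div_assoc, div_self (by positivity), mul_one]
    norm_num
  rw [h3, Finset.sum_image fun x _ y _ h => vv_inj h]
  refine mul_le_mul_of_nonneg_right (mul_le_mul_of_nonneg_left ?_ (by positivity)) (Nat.cast_nonneg _)
  rw [Finset.mul_sum]
  refine Finset.sum_le_sum fun x _ => ?_
  unfold wgt
  have h4 : (-(1 - 1 / ((2 : ℕ) : ℝ)) : ℝ) = -(1 / 2) := by norm_num
  have h5 : (-((d : ℝ) * (1 - 1 / ((2 : ℕ) : ℝ))) : ℝ) = -((d : ℝ) / 2) := by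
    push_cast
    ring
  rw [h4, h5, ht_vv_real]
  refine mul_le_mul_of_nonneg_left ?_ (by positivity)
  refine Real.rpow_le_rpow_of_nonpos (lt_min (lt_of_lt_of_le one_pos (le_max_left _ _)) (by linarith))
    (min_le_left _ _) ?_
  have : (0 : ℝ) ≤ d := Nat.cast_nonneg d
  linarith

theorem large_part (d : ℕ) (hd : 1 ≤ d) : ∃ C : ℝ, 0 < C ∧ ∀ H : ℕ, 1 ≤ H → ∀ A : Finset ℤ,
    (∀ x ∈ A, 4 * (H : ℤ) ≤ |x|) →
    ((WP d H A).ncard : ℝ) ≤ C * (∑ x ∈ A, wgt d H x) * ((Pl d H).ncard : ℝ) := by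
  classical
  obtain ⟨C, hC, h⟩ := count_all d hd
  refine ⟨C, hC, fun H hH A hA => ?_⟩
  have hHr : (1 : ℝ) ≤ H := by exact_mod_cast hH
  obtain ⟨hfin, -, -⟩ := pl_card d H
  have hcard := card_polys d H (Pl d H) rfl hfin
  obtain ⟨P, hP⟩ : ∃ P : Finset ℤ[X], (P : Set ℤ[X]) = Pl d H := ⟨hfin.toFinset, hfin.coe_toFinset⟩
  have hmem : ∀ f, f ∈ P ↔ f ∈ Pl d H := fun f => by rw [← hP, mem_coe]
  have h1 : WP d H (A : Set ℤ) ⊆
      ((A.biUnion fun x => P.filter fun f => ∃ y : ℤ, y ^ 2 = f.eval x : Finset ℤ[X]) : Set ℤ[X]) := by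
    rintro f ⟨hf, x, hx, hy⟩
    rw [mem_coe, mem_biUnion]
    exact ⟨x, mem_coe.1 hx, mem_filter.2 ⟨(hmem f).2 hf, hy⟩⟩
  have h2 := Set.ncard_le_ncard h1 (Finset.finite_toSet _)
  rw [Set.ncard_coe_finset] at h2
  have h3 : ((WP d H (A : Set ℤ)).ncard : ℝ) ≤
      ∑ x ∈ A, ((P.filter fun f => ∃ y : ℤ, y ^ 2 = f.eval x).card : ℝ) := by
    have := h2.trans card_biUnion_le
    exact_mod_cast this
  refine h3.trans ?_
  rw [mul_sum, sum_mul]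
  refine sum_le_sum fun x hx => ?_
  have hxr : 4 * (H : ℝ) ≤ |(x : ℝ)| := by
    have := hA x hx
    exact_mod_cast this
  refine (h H hH x hxr _ fun f hf => ?_).trans ?_
  · obtain ⟨h4, h5⟩ := mem_filter.1 hf
    have h6 := (hmem f).1 h4
    exact ⟨h6.1, h6.2, h5⟩
  · have h4 : wgt d H x = (H : ℝ) ^ (-(((d : ℝ) + 1) / 2)) := by
      unfold wgt
      rw [max_eq_right (by linarith), min_eq_right (by linarith), ← Real.rpow_add (by linarith)]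
      congr 1
      ring
    have h5 : (H : ℝ) ^ (d + 1) ≤ ((Pl d H).ncard : ℝ) := by
      have h6 : (((2 * H + 1) ^ (d + 1) : ℕ) : ℝ) ≤ ((Pl d H).ncard : ℝ) := by exact_mod_cast hcard
      refine le_trans ?_ h6
      push_cast
      exact pow_le_pow_left₀ (by positivity) (by linarith) _
    have h6 : (H : ℝ) ^ (((d : ℝ) + 1) / 2) = (H : ℝ) ^ (-(((d : ℝ) + 1) / 2)) * (H : ℝ) ^ (d + 1) := by
      rw [← Real.rpow_natCast, ← Real.rpow_add (by linarith)]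
      congr 1
      push_cast
      ring
    rw [h4, h6, mul_assoc]
    refine mul_le_mul_of_nonneg_left (mul_le_mul_of_nonneg_left h5 (by positivity)) hC.le

/-- **the law for all sizes** -/
theorem all_part (d : ℕ) (hd : 1 ≤ d) : ∃ C : ℝ, 0 < C ∧ ∀ H : ℕ, 1 ≤ H → ∀ A : Finset ℤ,
    ((WP d H A).ncard : ℝ) ≤ C * (∑ x ∈ A, wgt d H x) * ((Pl d H).ncard : ℝ) := by
  classical
  obtain ⟨C₁, hC₁, h1⟩ := small_part d hd
  obtain ⟨C₂, hC₂, h2⟩ := large_part d hd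
  refine ⟨C₁ + C₂, by positivity, fun H hH A => ?_⟩
  obtain ⟨hfin, -, -⟩ := pl_card d H
  have h3 := h1 H hH (A.filter fun x => |x| ≤ 4 * (H : ℤ)) fun x hx => (mem_filter.1 hx).2
  have h4 := h2 H hH (A.filter fun x => ¬ |x| ≤ 4 * (H : ℤ)) fun x hx => (not_le.1 (mem_filter.1 hx).2).le
  have h5 : WP d H (A : Set ℤ) ⊆ WP d H ((A.filter fun x => |x| ≤ 4 * (H : ℤ) : Finset ℤ) : Set ℤ) ∪
      WP d H ((A.filter fun x => ¬ |x| ≤ 4 * (H : ℤ) : Finset ℤ) : Set ℤ) := by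
    rintro f ⟨hf, x, hx, hy⟩
    by_cases hxx : |x| ≤ 4 * (H : ℤ)
    · exact Or.inl ⟨hf, x, mem_coe.2 (mem_filter.2 ⟨mem_coe.1 hx, hxx⟩), hy⟩
    · exact Or.inr ⟨hf, x, mem_coe.2 (mem_filter.2 ⟨mem_coe.1 hx, hxx⟩), hy⟩
  have hfin' : ∀ B : Set ℤ, (WP d H B).Finite := fun B => hfin.subset fun f hf => hf.1
  have h6 := (Set.ncard_le_ncard h5 ((hfin' _).union (hfin' _))).trans (Set.ncard_union_le _ _)
  have h7 : ((WP d H (A : Set ℤ)).ncard : ℝ) ≤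
      ((WP d H ((A.filter fun x => |x| ≤ 4 * (H : ℤ) : Finset ℤ) : Set ℤ)).ncard : ℝ) +
      ((WP d H ((A.filter fun x => ¬ |x| ≤ 4 * (H : ℤ) : Finset ℤ) : Set ℤ)).ncard : ℝ) := by
    exact_mod_cast h6
  have h8 : ∀ B : Finset ℤ, B ⊆ A → ∑ x ∈ B, wgt d H x ≤ ∑ x ∈ A, wgt d H x := fun B hB =>
    sum_le_sum_of_subset_of_nonneg hB fun x _ _ => wgt_nonneg d H x
  have h9 := h8 _ (filter_subset (fun x => |x| ≤ 4 * (H : ℤ)) A)
  have h10 := h8 _ (filter_subset (fun x => ¬ |x| ≤ 4 * (H : ℤ)) A)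
  have hN : (0 : ℝ) ≤ ((Pl d H).ncard : ℝ) := Nat.cast_nonneg _
  have h11 := mul_le_mul_of_nonneg_right (mul_le_mul_of_nonneg_left h9 hC₁.le) hN
  have h12 := mul_le_mul_of_nonneg_right (mul_le_mul_of_nonneg_left h10 hC₂.le) hN
  linarith

/-- the sum of the weights -/
theorem wgt_sum (d : ℕ) (hd : 3 ≤ d) : ∃ C : ℝ, 0 < C ∧ ∀ H T B : ℕ, 1 ≤ H →
    ∑ x ∈ (Icc (-(B : ℤ)) B).filter (fun x => (T : ℤ) ≤ |x|), wgt d H x ≤
      C * ((H : ℝ) ^ (-(1 / 2) : ℝ) * (max 1 (T : ℝ)) ^ (-((d : ℝ) / 2 - 1)) +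
        B * (H : ℝ) ^ (-(((d : ℝ) + 1) / 2))) := by
  classical
  have hdr : (3 : ℝ) ≤ d := by exact_mod_cast hd
  obtain ⟨κ, hκ⟩ : ∃ κ : ℝ, κ = (d : ℝ) / 2 - 1 := ⟨_, rfl⟩
  have hκ0 : 0 < κ := by rw [hκ]; linarith
  refine ⟨1 + 2 * (1 + 1 / κ) + 2, by positivity, fun H T B hH => ?_⟩
  have hHr : (1 : ℝ) ≤ H := by exact_mod_cast hH
  obtain ⟨T', hT'⟩ : ∃ T' : ℕ, T' = max 1 T := ⟨_, rfl⟩
  have hT1 : 1 ≤ T' := by omega
  have hTr : ((T' : ℕ) : ℝ) = max 1 (T : ℝ) := by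
    rw [hT']
    push_cast
    rfl
  rw [← hTr, ← hκ]
  have hT0 : (0 : ℝ) < T' := by exact_mod_cast hT1
  obtain ⟨g, hg⟩ : ∃ g : ℕ → ℝ, g = fun n : ℕ => (H : ℝ) ^ (-(1 / 2) : ℝ) * ((n : ℝ) ^ (-1 - κ) +
    (H : ℝ) ^ (-((d : ℝ) / 2))) := ⟨_, rfl⟩
  have hg0 : ∀ n, 0 ≤ g n := fun n => by rw [hg]; positivity
  have hwg : ∀ x : ℤ, x ≠ 0 → wgt d H x ≤ g x.natAbs := by
    intro x hx
    have h1 : (1 : ℝ) ≤ |(x : ℝ)| := by
      have := Int.one_le_abs hx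
      exact_mod_cast this
    have h2 : ((x.natAbs : ℕ) : ℝ) = |(x : ℝ)| := by
      rw [Nat.cast_natAbs]
      push_cast
      rfl
    rw [hg]
    show wgt d H x ≤ (H : ℝ) ^ (-(1 / 2) : ℝ) * (((x.natAbs : ℕ) : ℝ) ^ (-1 - κ) + (H : ℝ) ^ (-((d : ℝ) / 2)))
    rw [h2]
    unfold wgt
    refine mul_le_mul_of_nonneg_left ?_ (by positivity)
    rw [max_eq_right h1]
    have e : -1 - κ = -((d : ℝ) / 2) := by rw [hκ]; ring
    rw [e]
    have h3 : 0 ≤ |(x : ℝ)| ^ (-((d : ℝ) / 2)) := by positivity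
    have h4 : 0 ≤ (H : ℝ) ^ (-((d : ℝ) / 2)) := by positivity
    rcases min_choice |(x : ℝ)| (H : ℝ) with h | h
    · rw [h]; linarith
    · rw [h]; linarith
  have hw0 : wgt d H 0 ≤ (H : ℝ) ^ (-(1 / 2) : ℝ) := by
    unfold wgt
    rw [Int.cast_zero, abs_zero, max_eq_left (by norm_num), min_eq_left hHr, Real.one_rpow, mul_one]
  -- the sum over the nonzero integers
  have hsub : ((Icc (-(B : ℤ)) B).filter fun x => (T : ℤ) ≤ |x|).erase 0 ⊆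
      (Icc T' B).image (fun b : ℕ => (b : ℤ)) ∪ (Icc T' B).image (fun b : ℕ => -(b : ℤ)) := by
    intro x hx
    obtain ⟨h0, h1⟩ := mem_erase.1 hx
    obtain ⟨h2, h3⟩ := mem_filter.1 h1
    rw [mem_Icc] at h2
    have h4 : x.natAbs ∈ Icc T' B := by
      rw [mem_Icc]
      rw [← Int.natCast_natAbs] at h3
      omega
    rw [mem_union, mem_image, mem_image]
    rcases Int.natAbs_eq x with h | h
    · exact Or.inl ⟨_, h4, h.symm⟩
    · exact Or.inr ⟨_, h4, h.symm⟩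
  have h1 : ∑ x ∈ ((Icc (-(B : ℤ)) B).filter fun x => (T : ℤ) ≤ |x|).erase 0, wgt d H x ≤
      2 * ∑ k ∈ Icc T' B, g k := by
    refine (sum_le_sum fun x hx => hwg x (mem_erase.1 hx).1).trans ?_
    refine (sum_le_sum_of_subset_of_nonneg hsub fun x _ _ => hg0 _).trans ?_
    have h1 : ∑ x ∈ (Icc T' B).image (fun b : ℕ => (b : ℤ)), g x.natAbs = ∑ k ∈ Icc T' B, g k := by
      rw [sum_image fun a _ b _ h => by exact_mod_cast h]
      exact sum_congr rfl fun k _ => by rw [Int.natAbs_natCast]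
    have h2 : ∑ x ∈ (Icc T' B).image (fun b : ℕ => -(b : ℤ)), g x.natAbs = ∑ k ∈ Icc T' B, g k := by
      rw [sum_image fun a _ b _ h => by
        have : (a : ℤ) = b := neg_injective h
        exact_mod_cast this]
      exact sum_congr rfl fun k _ => by rw [Int.natAbs_neg, Int.natAbs_natCast]
    have h3 := sum_union_inter (s₁ := (Icc T' B).image fun b : ℕ => (b : ℤ))
      (s₂ := (Icc T' B).image fun b : ℕ => -(b : ℤ)) (f := fun x : ℤ => g x.natAbs)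
    have h4 : 0 ≤ ∑ x ∈ ((Icc T' B).image fun b : ℕ => (b : ℤ)) ∩ ((Icc T' B).image fun b : ℕ => -(b : ℤ)),
      g x.natAbs := sum_nonneg fun x _ => hg0 _
    linarith
  have h2 : ∑ k ∈ Icc T' B, g k ≤ (H : ℝ) ^ (-(1 / 2) : ℝ) * ((1 + 1 / κ) * (T' : ℝ) ^ (-κ) +
      B * (H : ℝ) ^ (-((d : ℝ) / 2))) := by
    rw [hg, ← mul_sum]
    refine mul_le_mul_of_nonneg_left ?_ (by positivity)
    rw [sum_add_distrib, sum_const, nsmul_eq_mul]
    refine add_le_add (Pool.Agent.U580.VP.sum_rpow κ hκ0 T' hT1 B) ?_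
    refine mul_le_mul_of_nonneg_right ?_ (by positivity)
    rw [Nat.card_Icc]
    have : B + 1 - T' ≤ B := by omega
    exact_mod_cast this
  have h3 : (H : ℝ) ^ (-(1 / 2) : ℝ) * (H : ℝ) ^ (-((d : ℝ) / 2)) = (H : ℝ) ^ (-(((d : ℝ) + 1) / 2)) := by
    rw [← Real.rpow_add (by linarith)]
    congr 1
    ring
  -- the integer zero
  have h4 : ∑ x ∈ (Icc (-(B : ℤ)) B).filter (fun x => (T : ℤ) ≤ |x|), wgt d H x ≤
      (H : ℝ) ^ (-(1 / 2) : ℝ) * (T' : ℝ) ^ (-κ) +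
      ∑ x ∈ ((Icc (-(B : ℤ)) B).filter fun x => (T : ℤ) ≤ |x|).erase 0, wgt d H x := by
    by_cases h0 : (0 : ℤ) ∈ (Icc (-(B : ℤ)) B).filter (fun x => (T : ℤ) ≤ |x|)
    · rw [← add_sum_erase _ _ h0]
      have h5 := (mem_filter.1 h0).2
      rw [abs_zero] at h5
      have h6 : T = 0 := by omega
      have h7 : T' = 1 := by omega
      rw [h7, Nat.cast_one, Real.one_rpow, mul_one]
      linarith
    · rw [erase_eq_of_notMem h0]
      have : 0 ≤ (H : ℝ) ^ (-(1 / 2) : ℝ) * (T' : ℝ) ^ (-κ) := by positivity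
      linarith
  obtain ⟨a, ha⟩ : ∃ a : ℝ, a = (H : ℝ) ^ (-(1 / 2) : ℝ) := ⟨_, rfl⟩
  obtain ⟨b, hb⟩ : ∃ b : ℝ, b = (T' : ℝ) ^ (-κ) := ⟨_, rfl⟩
  obtain ⟨e, he⟩ : ∃ e : ℝ, e = (H : ℝ) ^ (-((d : ℝ) / 2)) := ⟨_, rfl⟩
  rw [← h3]
  rw [← ha, ← hb, ← he] at h2
  rw [← ha, ← hb] at h4
  rw [← ha, ← hb, ← he]
  have ha0 : 0 ≤ a := by rw [ha]; positivity
  have hb0 : 0 ≤ b := by rw [hb]; positivity
  have he0 : 0 ≤ e := by rw [he]; positivity
  have hk : 0 ≤ 1 / κ := by positivity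
  have hB0 : (0 : ℝ) ≤ B := Nat.cast_nonneg B
  have h5 : 0 ≤ a * b := by positivity
  have h6 : 0 ≤ B * (a * e) := by positivity
  have h7 : 0 ≤ 1 / κ * (B * (a * e)) := by positivity
  calc ∑ x ∈ (Icc (-(B : ℤ)) B).filter (fun x => (T : ℤ) ≤ |x|), wgt d H x
      ≤ a * b + 2 * (a * ((1 + 1 / κ) * b + B * e)) := by linarith
    _ ≤ (1 + 2 * (1 + 1 / κ) + 2) * (a * b + B * (a * e)) := by nlinarith

end Pool.Agent.U62.HY
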